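import Pool.Agent.Work.MP_f36782_bd.Interface

set_option autoImplicit false

namespace Pool.BD

theorem p_CBI : Stmt_CBI := by
  intro T X k T' R n hn
  have h : Function.Bijective (fun r : {r : Raw T n // Valid X k n r} => r.1.1) := by
    constructor
    · rintro ⟨⟨q, Θ, e⟩, hr⟩ ⟨⟨q', Θ', e'⟩, hr'⟩ h
      have h1 : q = q' := h
      have h2 : Θ = ∅ := hr.z1 hn
      have h3 : Θ' = ∅ := hr'.z1 hn
      have h4 : e = Sum.inr ∅ := hr.z2 (by omega)
      have h5 : e' = Sum.inr ∅ := hr'.z2 (by omega)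
      subst h1 h2 h3 h4 h5
      rfl
    · intro q
      exact ⟨⟨(q, ∅, Sum.inr ∅), ⟨fun _ => rfl, fun _ => rfl, fun h => absurd h (by omega),
        fun h => absurd h (by omega)⟩⟩, rfl⟩
  exact h.comp (R.e n).bijective

end Pool.BD
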