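import Pool.Agent.Work.MP_f36782_bd.Interface

set_option autoImplicit false

/-!
# Block CCL: the preimage of a closed set is decided at length `2 k + 2`
-/

namespace Pool.BD

theorem p_CCL : Stmt_CCL := by
  classical
  intro T X k T' R hX
  -- the raw positions of a run
  have hprev : ∀ (x : Run T') (n : ℕ),
      (R.e n (x.pos n)).1 = rawPrev T k n (R.e (n + 1) (x.pos (n + 1))).1 := by
    intro x n
    have h := R.prev n (x.pos (n + 1))
    rw [x.prev n] at h
    exact h
  have he : ∀ (x : Run T') (j : ℕ), (R.e (2 * k + 2 + j) (x.pos (2 * k + 2 + j))).1.2.2 =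
      (R.e (2 * k + 2) (x.pos (2 * k + 2))).1.2.2 := by
    intro x j
    induction j with
    | zero => rfl
    | succ j ih =>
      rw [← ih, hprev x (2 * k + 2 + j)]
      show _ = if 2 * k + 2 + j ≤ 2 * k + 1 then Sum.inr ∅ else _
      rw [if_neg (by omega)]
      rfl
  have he' : ∀ (x : Run T') (n : ℕ), 2 * k + 2 ≤ n → (R.e n (x.pos n)).1.2.2 =
      (R.e (2 * k + 2) (x.pos (2 * k + 2))).1.2.2 := by
    intro x n hn
    obtain ⟨j, rfl⟩ := Nat.exists_eq_add_of_le hn
    exact he x j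
  -- membership is decided by the third component
  have key : ∀ x : Run T', (x ∈ {x : Run T' | ∃ y ∈ X, ∀ n, y.pos n = R.pr n (x.pos n)}) ↔
      ∃ Ψ, (R.e (2 * k + 2) (x.pos (2 * k + 2))).1.2.2 = Sum.inr Ψ := by
    intro x
    have hgood : ∀ n, 2 * k + 2 ≤ n → Good X (R.e n (x.pos n)).1.2.1
        ⟨2 * k + 2, tr ⟨n, (R.e n (x.pos n)).1.1⟩ (2 * k + 2)⟩ ⟨n, (R.e n (x.pos n)).1.1⟩
        (R.e (2 * k + 2) (x.pos (2 * k + 2))).1.2.2 := by
      intro n hn
      rw [← he' x n hn]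
      exact (R.e n (x.pos n)).2.v2 hn
    constructor
    · rintro ⟨y, hyX, hy⟩
      rcases hE : (R.e (2 * k + 2) (x.pos (2 * k + 2))).1.2.2 with u | Ψ
      · exfalso
        rw [hE] at hgood
        have hu : 2 * k + 2 ≤ u.1 := (hgood (2 * k + 2) le_rfl).2.1.1
        obtain ⟨-, -, h3, h4⟩ := hgood u.1 hu
        have h5 : (⟨u.1, (R.e u.1 (x.pos u.1)).1.1⟩ : Po T) = u := by
          rcases h4 with h4 | h4
          · exact le_antisymm' h4 rfl
          · exact (le_antisymm' h4 rfl).symm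
        apply h3
        refine ⟨y, hyX, ?_⟩
        have h6 : y.pos u.1 = (R.e u.1 (x.pos u.1)).1.1 := hy u.1
        have h7 : (⟨u.1, y.pos u.1⟩ : Po T) = u := by rw [h6, h5]
        obtain ⟨a, b⟩ := u
        exact eq_of_heq (Sigma.mk.inj h7).2
      · exact ⟨Ψ, rfl⟩
    · rintro ⟨Ψ, hE⟩
      rw [hE] at hgood
      let y : Run T := ⟨fun n => R.pr n (x.pos n), fun n => by
        show T.prev n (R.e (n + 1) (x.pos (n + 1))).1.1 = (R.e n (x.pos n)).1.1
        rw [hprev x n]
        rfl⟩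
      refine ⟨y, ?_, fun n => rfl⟩
      by_contra hy
      obtain ⟨n, hn⟩ := hX y hy
      obtain ⟨-, h2, h3⟩ := hgood (max n (2 * k + 2)) (le_max_right _ _)
      obtain ⟨x', hx'X, hx'⟩ := h2 _ h3
      exact hn x' (run_unique x' y (max n (2 * k + 2)) n (le_max_left _ _) hx') hx'X
  intro x
  refine ⟨2 * k + 2, fun y hy => ?_⟩
  rw [key y, key x, hy]

end Pool.BD
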