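import Pool.Agent.Work.MP_f36782_bd.Interface

/-! Block CL0 (helper98): the covering strategies for player I. -/

set_option autoImplicit false

namespace Pool.BD

section aux

variable {T : Tree} {X : Set (Run T)} {k : ℕ} {T' : Tree}

theorem CL0_inj (R : Rep X k T') {n : ℕ} {q q' : T'.Pos n} (h : (R.e n q).1 = (R.e n q').1) :
    q = q' := (R.e n).injective (Subtype.ext h)

theorem CL0_prev (R : Rep X k T') (n : ℕ) (q : T'.Pos (n + 1)) :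
    R.pr n (T'.prev n q) = T.prev n (R.pr (n + 1) q) := congrArg Prod.fst (R.prev n q)

theorem CL0_ex (R : Rep X k T') (n : ℕ) (r : Raw T n) (h : Valid X k n r) :
    ∃ q : T'.Pos n, (R.e n q).1 = r := ⟨(R.e n).symm ⟨r, h⟩, by rw [Equiv.apply_symm_apply]⟩

theorem CL0_nxt (R : Rep X k T') (n : ℕ) (hn : 2 * k + 2 ≤ n) (q : T'.Pos n)
    (y : T'.Pos (n + 1)) (hy : T'.prev n y = q) (w : T.Pos n) (Θ : Set (Po T))
    (e : Po T ⊕ Set (Po T)) (h : (R.e n q).1 = (w, Θ, e)) :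
    (R.e (n + 1) y).1 = (R.pr (n + 1) y, Θ, e) := by
  have h1 := R.prev n y
  rw [hy, h] at h1
  unfold rawPrev at h1
  simp only [if_neg (show ¬ n ≤ 2 * k by omega), if_neg (show ¬ n ≤ 2 * k + 1 by omega)] at h1
  have h2 : Θ = (R.e (n + 1) y).1.2.1 := congrArg (fun z => z.2.1) h1
  have h3 : e = (R.e (n + 1) y).1.2.2 := congrArg (fun z => z.2.2) h1
  rw [h2, h3]
  rfl

theorem CL0_lift (hCBI : Stmt_CBI) (hCRN : Stmt_CRN) (R : Rep X k T') (σ : Strat T')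
    (x : Run T) (Θ : Set (Po T)) (e : Po T ⊕ Set (Po T))
    (hQ : QS Set.univ 0 ⟨2 * k + 1, x.pos (2 * k + 1)⟩ Θ)
    (hG : ∀ n, 2 * k + 2 ≤ n → Good X Θ ⟨2 * k + 2, x.pos (2 * k + 2)⟩ ⟨n, x.pos n⟩ e)
    (h0 : ∀ n, n < 2 * k → n % 2 = 0 → ∀ q', R.pr n q' = x.pos n →
      R.pr (n + 1) (σ.mv n q') = x.pos (n + 1))
    (h1 : ∀ q', R.pr (2 * k) q' = x.pos (2 * k) →
      (R.e (2 * k + 1) (σ.mv (2 * k) q')).1 = (x.pos (2 * k + 1), Θ, Sum.inr ∅))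
    (h2 : ∀ n, 2 * k + 2 ≤ n → n % 2 = 0 → ∀ q', (R.e n q').1 = (x.pos n, Θ, e) →
      R.pr (n + 1) (σ.mv n q') = x.pos (n + 1)) :
    ∃ x' : Run T', Fol 0 σ x' ∧ ∀ n, R.pr n (x'.pos n) = x.pos n := by
  obtain ⟨x', a1, a2, a3⟩ := hCRN T X k T' R x Θ e hQ hG
  have hpr : ∀ n, R.pr n (x'.pos n) = x.pos n := by
    intro n
    rcases Nat.lt_or_ge (2 * k) n with h | h
    · rcases Nat.lt_or_ge (2 * k + 1) n with h' | h'
      · exact congrArg Prod.fst (a3 n h')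
      · obtain rfl : n = 2 * k + 1 := by omega
        exact congrArg Prod.fst a2
    · exact congrArg Prod.fst (a1 n h)
  refine ⟨x', ?_, hpr⟩
  intro n hn
  rcases Nat.lt_trichotomy n (2 * k) with h | h | h
  · apply (hCBI T X k T' R (n + 1) (by omega)).1
    rw [hpr, h0 n h hn _ (hpr n)]
  · subst h
    exact CL0_inj R (by rw [a2, h1 _ (hpr _)])
  · have h' : 2 * k + 2 ≤ n := by omega
    apply CL0_inj R
    rw [a3 (n + 1) (by omega), CL0_nxt R n h' (x'.pos n) (σ.mv n (x'.pos n)) (σ.sec n _) _ _ _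
      (a3 n h'), h2 n h' hn _ (a3 n h')]

end aux

/-- The positions after `a` outside `X`. -/
def CL0_G {T : Tree} (X : Set (Run T)) (a : Po T) : Set (Po T) := {u | Le a u ∧ ¬ InX X u}

/-- The conclusion of MOD for player I. -/
structure CL0_M {T : Tree} (X : Set (Run T)) (Θ : Set (Po T)) (a : Po T) (m : Po T → ℕ)
    (u : Po T → Po T) (τ : Strat T) : Prop where
  m0 : ∀ b, m b = 0 → b ∈ Sf 0 Θ (CL0_G X a) a
  m2 : ∀ b, m b = 2 → u b ∈ CL0_G X a ∧ u b ∈ Θ ∧ Le (u b) b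
  run : ∀ x : Run T, x.pos a.1 = a.2 →
    (∀ n, a.1 ≤ n → n % 2 = 0 → (m ⟨n, x.pos n⟩ = 0 → (⟨n + 1, x.pos (n + 1)⟩ : Po T) ∈ Θ) ∧
      (m ⟨n, x.pos n⟩ = 1 → x.pos (n + 1) = τ.mv n (x.pos n))) →
    (∀ n, a.1 ≤ n → m ⟨n, x.pos n⟩ = 0) ∨
    ∃ N, a.1 ≤ N ∧ (⟨N, x.pos N⟩ : Po T) ∈ CL0_G X a ∧ (⟨N, x.pos N⟩ : Po T) ∈ Θ ∧
      ∀ n, N ≤ n → m ⟨n, x.pos n⟩ = 2 ∧ u ⟨n, x.pos n⟩ = ⟨N, x.pos N⟩

theorem p_CL0 (hQSF : Stmt_QSF) (hMOD : Stmt_MOD) (hCBI : Stmt_CBI) (hCRN : Stmt_CRN) :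
    Stmt_CL0 := by
  intro T X k T' R
  classical
  have hov : ∀ w : T.Pos (2 * k), ∃ q' : T'.Pos (2 * k), R.pr (2 * k) q' = w :=
    (hCBI T X k T' R (2 * k) le_rfl).2
  choose ov hov using hov
  -- the moves up to length `2 k`
  have hA : ∀ n (g : T'.Pos n → T'.Pos (n + 1)) (q : T.Pos n), ∃ c : T.Pos (n + 1),
      T.prev n c = q ∧ (n ≤ 2 * k → (∀ q', T'.prev n (g q') = q') →
        ∀ q', R.pr n q' = q → c = R.pr (n + 1) (g q')) := by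
    intro n g q
    by_cases h : n ≤ 2 * k ∧ ∀ q', T'.prev n (g q') = q'
    · obtain ⟨q', hq'⟩ := (hCBI T X k T' R n h.1).2 q
      refine ⟨R.pr (n + 1) (g q'), ?_, ?_⟩
      · rw [← CL0_prev, h.2, hq']
      · intro _ _ q'' hq''
        have : q'' = q' := (hCBI T X k T' R n h.1).1 (hq''.trans hq'.symm)
        rw [this]
    · obtain ⟨c, hc⟩ := T.surj n q
      exact ⟨c, hc, fun h1 h2 => absurd ⟨h1, h2⟩ h⟩
  choose A hA1 hA2 using hA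
  -- the modes
  have hD : ∀ (Θ : Set (Po T)) (a : Po T), ∃ (m : Po T → ℕ) (u : Po T → Po T) (τ : Strat T),
      Kp 0 Θ → a ∈ Θ → (∀ b ∈ Θ, b.1 % 2 ≠ 0 → ∀ c, c.1 = b.1 + 1 → Le b c → c ∈ Θ) →
      CL0_M X Θ a m u τ := by
    intro Θ a
    by_cases h : Kp 0 Θ ∧ a ∈ Θ ∧
        (∀ b ∈ Θ, b.1 % 2 ≠ 0 → ∀ c, c.1 = b.1 + 1 → Le b c → c ∈ Θ)
    · obtain ⟨m, u, τ, h1, h2, h3⟩ := hMOD T 0 Θ (CL0_G X a) a (by norm_num) h.1 h.2.1 h.2.2
        (fun u hu => hu.1)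
      exact ⟨m, u, τ, fun _ _ _ => ⟨h1, h2, h3⟩⟩
    · obtain ⟨τ⟩ := exists_strat T
      exact ⟨fun _ => 0, fun b => b, τ, fun h1 h2 h3 => absurd ⟨h1, h2, h3⟩ h⟩
  choose m u τ hD using hD
  obtain ⟨E, hE⟩ : ∃ E : Set (Po T) → Po T → Po T → Po T ⊕ Set (Po T), ∀ Θ a b,
      E Θ a b = if m Θ a b = 2 then Sum.inl (u Θ a b) else Sum.inr (Sf 0 Θ (CL0_G X a) a) :=
    ⟨_, fun _ _ _ => rfl⟩
  -- the moves after length `2 k`
  have hF : ∀ n (Θ : Set (Po T)) (a : Po T) (g : T'.Pos n → T'.Pos (n + 1)) (q : T.Pos n),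
      ∃ c : T.Pos (n + 1), T.prev n c = q ∧ (m Θ a ⟨n, q⟩ = 1 → c = (τ Θ a).mv n q) ∧
        ((∀ q', T'.prev n (g q') = q') → m Θ a ⟨n, q⟩ ≠ 1 →
          ∀ q', (R.e n q').1 = (q, Θ, E Θ a ⟨n, q⟩) → c = R.pr (n + 1) (g q')) := by
    intro n Θ a g q
    by_cases h1 : m Θ a ⟨n, q⟩ = 1
    · exact ⟨(τ Θ a).mv n q, (τ Θ a).sec n q, fun _ => rfl, fun _ h => absurd h1 h⟩
    · by_cases h2 : (∀ q', T'.prev n (g q') = q') ∧
          ∃ q', (R.e n q').1 = (q, Θ, E Θ a ⟨n, q⟩)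
      · obtain ⟨h2, q', hq'⟩ := h2
        refine ⟨R.pr (n + 1) (g q'), ?_, fun h => absurd h h1, ?_⟩
        · rw [← CL0_prev, h2]
          exact congrArg Prod.fst hq'
        · intro _ _ q'' hq''
          have : q'' = q' := CL0_inj R (hq''.trans hq'.symm)
          rw [this]
      · obtain ⟨c, hc⟩ := T.surj n q
        exact ⟨c, hc, fun h => absurd h h1, fun h3 _ q' hq' => absurd ⟨h3, q', hq'⟩ h2⟩
  choose F hF1 hF2 hF3 using hF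
  obtain ⟨Th, hTh⟩ : ∃ Th : (T'.Pos (2 * k) → T'.Pos (2 * k + 1)) → T.Pos (2 * k) →
      Set (Po T), ∀ f w, Th f w = (R.e (2 * k + 1) (f (ov w))).1.2.1 := ⟨_, fun _ _ => rfl⟩
  obtain ⟨st, st_lo, st_hi⟩ : ∃ st : Strat T' → Strat T,
      (∀ σ n q, n ≤ 2 * k → (st σ).mv n q = A n (σ.mv n) q) ∧
      (∀ σ n q, ¬ n ≤ 2 * k → (st σ).mv n q = F n (Th (σ.mv (2 * k)) (tr ⟨n, q⟩ (2 * k)))
        ⟨2 * k + 2, tr ⟨n, q⟩ (2 * k + 2)⟩ (σ.mv n) q) := by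
    refine ⟨fun σ => ⟨fun n q => if n ≤ 2 * k then A n (σ.mv n) q else
      F n (Th (σ.mv (2 * k)) (tr ⟨n, q⟩ (2 * k))) ⟨2 * k + 2, tr ⟨n, q⟩ (2 * k + 2)⟩
        (σ.mv n) q, ?_⟩, ?_, ?_⟩
    · intro n q
      by_cases h : n ≤ 2 * k
      · simp only [if_pos h]
        exact hA1 _ _ _
      · simp only [if_neg h]
        exact hF1 _ _ _ _ _
    · intro σ n q h
      exact if_pos h
    · intro σ n q h
      exact if_neg h
  refine ⟨st, ?_, ?_, ?_⟩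
  · intro σ σ' n hm
    funext q
    by_cases h : n ≤ 2 * k
    · rw [st_lo σ n q h, st_lo σ' n q h, hm n le_rfl]
    · rw [st_hi σ n q h, st_hi σ' n q h, hm n le_rfl, hm (2 * k) (by omega)]
  · intro σ n q hn
    rw [st_lo σ n _ hn.le]
    exact (hA2 n (σ.mv n) _ hn.le (σ.sec n) q rfl).symm
  -- lifting
  intro σ x hx
  obtain ⟨Θ, hΘ⟩ : ∃ Θ : Set (Po T), Θ = Th (σ.mv (2 * k)) (x.pos (2 * k)) := ⟨_, rfl⟩
  have hr1 : (R.e (2 * k + 1) (σ.mv (2 * k) (ov (x.pos (2 * k))))).1 =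
      (x.pos (2 * k + 1), Θ, Sum.inr ∅) := by
    have e1 : x.pos (2 * k + 1) = R.pr (2 * k + 1) (σ.mv (2 * k) (ov (x.pos (2 * k)))) := by
      rw [hx (2 * k) (by omega), st_lo σ (2 * k) _ le_rfl]
      exact hA2 (2 * k) (σ.mv (2 * k)) _ le_rfl (σ.sec _) _ (hov _)
    have e2 : (R.e (2 * k + 1) (σ.mv (2 * k) (ov (x.pos (2 * k))))).1.2.2 = Sum.inr ∅ :=
      (R.e (2 * k + 1) (σ.mv (2 * k) (ov (x.pos (2 * k))))).2.z2 le_rfl
    have e3 : (R.e (2 * k + 1) (σ.mv (2 * k) (ov (x.pos (2 * k))))).1.2.1 = Θ := by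
      rw [hΘ, hTh]
    exact Prod.ext e1.symm (Prod.ext e3 e2)
  have hQ : QS Set.univ 0 ⟨2 * k + 1, x.pos (2 * k + 1)⟩ Θ := by
    have h1 := (R.e (2 * k + 1) (σ.mv (2 * k) (ov (x.pos (2 * k))))).2.v1 le_rfl
    rw [hr1] at h1
    have h2 : tr (⟨2 * k + 1, x.pos (2 * k + 1)⟩ : Po T) (2 * k + 1) = x.pos (2 * k + 1) :=
      tr_self _
    simp only [h2] at h1
    exact h1
  obtain ⟨a, ha⟩ : ∃ a : Po T, a = ⟨2 * k + 2, x.pos (2 * k + 2)⟩ := ⟨_, rfl⟩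
  have ha1 : a.1 = 2 * k + 2 := by rw [ha]
  have haQ : Le (⟨2 * k + 1, x.pos (2 * k + 1)⟩ : Po T) a := by
    rw [ha]
    exact le_run x (2 * k + 2) (2 * k + 1) (by omega)
  have hopp : ∀ b ∈ Θ, b.1 % 2 ≠ 0 → ∀ c, c.1 = b.1 + 1 → Le b c → c ∈ Θ :=
    fun b hb h c hc hl => hQ.opp b hb h c (Set.mem_univ _) hc hl
  have haΘ : a ∈ Θ := by
    refine hopp ⟨2 * k + 1, x.pos (2 * k + 1)⟩ hQ.root ?_ a ?_ haQ
    · show (2 * k + 1) % 2 ≠ 0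
      omega
    · rw [ha1]
  have hKp : Kp 0 Θ := fun d hd hp => hQ.own d hd hp
  have hM := hD Θ a hKp haΘ hopp
  have hst : ∀ n, 2 * k + 2 ≤ n → n % 2 = 0 →
      x.pos (n + 1) = F n Θ a (σ.mv n) (x.pos n) := by
    intro n hn hp
    rw [hx n hp, st_hi σ n _ (by omega), tr_run x n (2 * k) (by omega),
      tr_run x n (2 * k + 2) hn, ← hΘ, ← ha]
  have hPsi : ∀ b, b ∈ Sf 0 Θ (CL0_G X a) a → QS Θ 1 a (Sf 0 Θ (CL0_G X a) a) ∧
      ∀ c ∈ Sf 0 Θ (CL0_G X a) a, InX X c := by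
    intro b hb
    obtain ⟨q1, q2⟩ := hQSF T 0 1 Θ (CL0_G X a) a (by norm_num) rfl hKp haΘ
      (fun b hb c h1 h2 => hQ.down b hb c (le_trans' haQ h1) h2)
      (hb.2.2 a (le_self a) hb.2.1)
    refine ⟨q1, fun c hc => ?_⟩
    by_contra hcon
    exact q2 c hc ⟨hc.2.1, hcon⟩
  have hmode0 : ∀ n, m Θ a ⟨n, x.pos n⟩ = 0 →
      Good X Θ a ⟨n, x.pos n⟩ (Sum.inr (Sf 0 Θ (CL0_G X a) a)) := by
    intro n hm
    have h1 := hM.m0 _ hm
    exact ⟨(hPsi _ h1).1, (hPsi _ h1).2, h1⟩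
  have hval : ∀ n e, 2 * k + 2 ≤ n → Good X Θ a ⟨n, x.pos n⟩ e →
      Valid X k n (x.pos n, Θ, e) := by
    intro n e hn he
    refine ⟨fun h => absurd h (by omega), fun h => absurd h (by omega), fun _ => ?_,
      fun _ => ?_⟩
    · show QS Set.univ 0 ⟨2 * k + 1, tr ⟨n, x.pos n⟩ (2 * k + 1)⟩ Θ
      rw [tr_run x n (2 * k + 1) (by omega)]
      exact hQ
    · show Good X Θ ⟨2 * k + 2, tr ⟨n, x.pos n⟩ (2 * k + 2)⟩ ⟨n, x.pos n⟩ e
      rw [tr_run x n (2 * k + 2) hn, ← ha]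
      exact he
  have hE0 : ∀ b, m Θ a b = 0 → E Θ a b = Sum.inr (Sf 0 Θ (CL0_G X a) a) := by
    intro b hb
    rw [hE, hb, if_neg (by norm_num)]
  have h0 : ∀ n, n < 2 * k → n % 2 = 0 → ∀ q', R.pr n q' = x.pos n →
      R.pr (n + 1) (σ.mv n q') = x.pos (n + 1) := by
    intro n hn hp q' hq'
    rw [hx n hp, st_lo σ n _ hn.le]
    exact (hA2 n (σ.mv n) _ hn.le (σ.sec n) q' hq').symm
  have h1 : ∀ q', R.pr (2 * k) q' = x.pos (2 * k) →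
      (R.e (2 * k + 1) (σ.mv (2 * k) q')).1 = (x.pos (2 * k + 1), Θ, Sum.inr ∅) := by
    intro q' hq'
    have e1 : q' = ov (x.pos (2 * k)) :=
      (hCBI T X k T' R (2 * k) le_rfl).1 (hq'.trans (hov _).symm)
    rw [e1, hr1]
  have hrun := hM.run x (by rw [ha]) (by
    intro n hn hp
    rw [ha1] at hn
    refine ⟨fun hm => ?_, fun hm => ?_⟩
    · obtain ⟨q', hq'⟩ := CL0_ex R n _ (hval n _ hn (hmode0 n hm))
      have e1 : x.pos (n + 1) = R.pr (n + 1) (σ.mv n q') :=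
        (hst n hn hp).trans (hF3 n Θ a (σ.mv n) (x.pos n) (σ.sec n) (by rw [hm]; norm_num) q'
          (by rw [hq', hE0 _ hm]))
      have e2 := CL0_nxt R n hn q' (σ.mv n q') (σ.sec n q') _ _ _ hq'
      have e3 := (R.e (n + 1) (σ.mv n q')).2.v2 (by omega)
      rw [e2, ← e1] at e3
      exact e3.2.2.1
    · exact (hst n hn hp).trans (hF2 n Θ a (σ.mv n) (x.pos n) hm))
  rw [ha1] at hrun
  rcases hrun with hr | ⟨N, hN, hNG, hNΘ, hNm⟩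
  · refine CL0_lift hCBI hCRN R σ x Θ (Sum.inr (Sf 0 Θ (CL0_G X a) a)) hQ ?_ h0 h1 ?_
    · intro n hn
      rw [← ha]
      exact hmode0 n (hr n hn)
    · intro n hn hp q' hq'
      exact ((hst n hn hp).trans (hF3 n Θ a (σ.mv n) (x.pos n) (σ.sec n)
        (by rw [hr n hn]; norm_num) q' (by rw [hq', hE0 _ (hr n hn)]))).symm
  · have hgood : ∀ n, 2 * k + 2 ≤ n →
        Good X Θ a ⟨n, x.pos n⟩ (Sum.inl ⟨N, x.pos N⟩) := by
      intro n _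
      refine ⟨hNΘ, hNG.1, hNG.2, ?_⟩
      rcases Nat.le_total n N with h | h
      · exact Or.inl (le_run x N n h)
      · exact Or.inr (le_run x n N h)
    refine CL0_lift hCBI hCRN R σ x Θ (Sum.inl ⟨N, x.pos N⟩) hQ ?_ h0 h1 ?_
    · intro n hn
      rw [← ha]
      exact hgood n hn
    · intro n hn hp q' hq'
      rcases Nat.lt_or_ge n N with h | h
      · have e2 := CL0_nxt R n hn q' (σ.mv n q') (σ.sec n q') _ _ _ hq'
        have e3 := (R.e (n + 1) (σ.mv n q')).2.v2 (by omega)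
        rw [e2] at e3
        have e4 : Le (⟨n + 1, R.pr (n + 1) (σ.mv n q')⟩ : Po T) ⟨N, x.pos N⟩ := by
          rcases e3.2.2.2 with e4 | e4
          · exact e4
          · have h5 : N ≤ n + 1 := e4.1
            have h6 : N = n + 1 := by omega
            have h7 := le_antisymm' e4 h6
            rw [h7]
            exact le_self _
        have h8 : tr (⟨N, x.pos N⟩ : Po T) (n + 1) = R.pr (n + 1) (σ.mv n q') := e4.2
        rw [← h8, tr_run x N (n + 1) (by omega)]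
      · obtain ⟨g1, g2⟩ := hNm n h
        refine ((hst n hn hp).trans (hF3 n Θ a (σ.mv n) (x.pos n) (σ.sec n)
          (by rw [g1]; norm_num) q' ?_)).symm
        rw [hq', hE, g1, if_pos rfl, g2]

end Pool.BD
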