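import Pool.Agent.Work.MP_f36782_bd.Interface

set_option autoImplicit false

/-!
# Borel determinacy, block CL1: the covering strategies of player II
-/

namespace Pool.BD

open Classical in
/-- The next position with the property `C`, if there is one. -/
noncomputable def CL1_mv {T : Tree} (n : ℕ) (C : T.Pos (n + 1) → Prop) (q : T.Pos n) :
    T.Pos (n + 1) :=
  if h : ∃ c, T.prev n c = q ∧ C c then h.choose else Function.surjInv (T.surj n) q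

theorem CL1_mv_sec {T : Tree} (n : ℕ) (C : T.Pos (n + 1) → Prop) (q : T.Pos n) :
    T.prev n (CL1_mv n C q) = q := by
  unfold CL1_mv
  split_ifs with h
  · exact h.choose_spec.1
  · exact Function.surjInv_eq (T.surj n) q

theorem CL1_mv_spec {T : Tree} (n : ℕ) (C : T.Pos (n + 1) → Prop) (q : T.Pos n)
    (c : T.Pos (n + 1)) (h1 : T.prev n c = q) (h2 : C c) : C (CL1_mv n C q) := by
  have h : ∃ c, T.prev n c = q ∧ C c := ⟨c, h1, h2⟩
  unfold CL1_mv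
  rw [dif_pos h]
  exact h.choose_spec.2

theorem CL1_le {T : Tree} (n : ℕ) (c : T.Pos (n + 1)) :
    Le (⟨n, T.prev n c⟩ : Po T) ⟨n + 1, c⟩ := by
  refine ⟨Nat.le_succ n, ?_⟩
  show tr (⟨n + 1, c⟩ : Po T) n = T.prev n c
  rw [tr_prev n c n le_rfl]
  exact tr_self (⟨n, T.prev n c⟩ : Po T)

theorem CL1_kp (T : Tree) (p : ℕ) : Kp p (Set.univ : Set (Po T)) := by
  rintro ⟨n, q⟩ - -
  obtain ⟨c, rfl⟩ := T.surj n q
  exact ⟨⟨n + 1, c⟩, Set.mem_univ _, rfl, CL1_le n c⟩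

/-- The data of the modes. -/
def CL1_MP {T : Tree} (G : Set (Po T)) (a : Po T)
    (D : (Po T → ℕ) × (Po T → Po T) × Strat T) : Prop :=
  (∀ b, D.1 b = 0 → b ∈ Sf 1 Set.univ G a) ∧
  (∀ b, D.1 b = 2 → D.2.1 b ∈ G ∧ D.2.1 b ∈ (Set.univ : Set (Po T)) ∧ Le (D.2.1 b) b) ∧
  ∀ x : Run T, x.pos a.1 = a.2 →
    (∀ n, a.1 ≤ n → n % 2 = 1 →
      (D.1 ⟨n, x.pos n⟩ = 0 → (⟨n + 1, x.pos (n + 1)⟩ : Po T) ∈ (Set.univ : Set (Po T))) ∧
      (D.1 ⟨n, x.pos n⟩ = 1 → x.pos (n + 1) = D.2.2.mv n (x.pos n))) →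
    (∀ n, a.1 ≤ n → D.1 ⟨n, x.pos n⟩ = 0) ∨
    ∃ N, a.1 ≤ N ∧ (⟨N, x.pos N⟩ : Po T) ∈ G ∧ (⟨N, x.pos N⟩ : Po T) ∈ (Set.univ : Set (Po T)) ∧
      ∀ n, N ≤ n → D.1 ⟨n, x.pos n⟩ = 2 ∧ D.2.1 ⟨n, x.pos n⟩ = ⟨N, x.pos N⟩

open Classical in
/-- The modes. -/
noncomputable def CL1_md {T : Tree} (G : Set (Po T)) (a : Po T) :
    (Po T → ℕ) × (Po T → Po T) × Strat T :=
  if h : ∃ D, CL1_MP G a D then h.choose else
    (fun _ => 0, fun b => b, Classical.choice (exists_strat T))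

theorem CL1_md_spec (hMOD : Stmt_MOD) {T : Tree} (G : Set (Po T)) (a : Po T)
    (h : ∀ u ∈ G, Le a u) : CL1_MP G a (CL1_md G a) := by
  have h1 : ∃ D, CL1_MP G a D := by
    obtain ⟨m, u, τ, h2, h3, h4⟩ := hMOD T 1 Set.univ G a (by norm_num) (CL1_kp T 1)
      (Set.mem_univ _) (fun _ _ _ _ _ _ => Set.mem_univ _) h
    exact ⟨(m, u, τ), h2, h3, h4⟩
  unfold CL1_md
  rw [dif_pos h1]
  exact h1.choose_spec

section

variable {T : Tree} {X : Set (Run T)} {k : ℕ} {T' : Tree} (R : Rep X k T')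

theorem CL1_pr_prev (n : ℕ) (q : T'.Pos (n + 1)) :
    R.pr n (T'.prev n q) = T.prev n (R.pr (n + 1) q) := by
  show (R.e n (T'.prev n q)).1.1 = _
  rw [R.prev]
  rfl

theorem CL1_inj (n : ℕ) (q q' : T'.Pos n) (h : (R.e n q).1 = (R.e n q').1) : q = q' :=
  (R.e n).injective (Subtype.ext h)

theorem CL1_at (n : ℕ) (r : Raw T n) (h : Valid X k n r) : ∃ q : T'.Pos n, (R.e n q).1 = r :=
  ⟨(R.e n).symm ⟨r, h⟩, by rw [Equiv.apply_symm_apply]⟩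

theorem CL1_sec (σ : Strat T') (n : ℕ) (q : T'.Pos n) :
    rawPrev T k n (R.e (n + 1) (σ.mv n q)).1 = (R.e n q).1 := by
  rw [← R.prev, σ.sec]

theorem CL1_pr_sec (σ : Strat T') (n : ℕ) (q : T'.Pos n) :
    T.prev n (R.pr (n + 1) (σ.mv n q)) = R.pr n q := by
  rw [← CL1_pr_prev, σ.sec]

theorem CL1_next (σ : Strat T') (n : ℕ) (hn : 2 * k + 2 ≤ n) (q : T'.Pos n) :
    (R.e (n + 1) (σ.mv n q)).1.2 = (R.e n q).1.2 := by
  have h := congrArg (fun r : Raw T n => r.2) (CL1_sec R σ n q)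
  have e1 : ¬ n ≤ 2 * k := by omega
  have e2 : ¬ n ≤ 2 * k + 1 := by omega
  simp only [rawPrev, if_neg e1, if_neg e2] at h
  exact h

theorem CL1_next1 (σ : Strat T') (q : T'.Pos (2 * k + 1)) :
    (R.e (2 * k + 1 + 1) (σ.mv (2 * k + 1) q)).1.2.1 = (R.e (2 * k + 1) q).1.2.1 := by
  have h := congrArg (fun r : Raw T (2 * k + 1) => r.2.1) (CL1_sec R σ (2 * k + 1) q)
  have e1 : ¬ 2 * k + 1 ≤ 2 * k := by omega
  simp only [rawPrev, if_neg e1] at h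
  exact h

/-- The answer `e` of the strategy to the quasi-strategy `Θ`. -/
def CL1_E (s : T'.Pos (2 * k + 1) → T'.Pos (2 * k + 1 + 1)) (a : T.Pos (2 * k + 1))
    (Θ : Set (Po T)) (e : Po T ⊕ Set (Po T)) : Prop :=
  ∃ q : T'.Pos (2 * k + 1), (R.e (2 * k + 1) q).1 = (a, Θ, Sum.inr ∅) ∧
    (R.e (2 * k + 1 + 1) (s q)).1.2.2 = e

/-- The positions which can be chosen by the strategy. -/
def CL1_G (s : T'.Pos (2 * k + 1) → T'.Pos (2 * k + 1 + 1)) (a : T.Pos (2 * k + 1)) :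
    Set (Po T) := {u | ∃ Θ, CL1_E R s a Θ (Sum.inl u)}

open Classical in
/-- A quasi-strategy to which the answer is `u`. -/
noncomputable def CL1_TH (s : T'.Pos (2 * k + 1) → T'.Pos (2 * k + 1 + 1))
    (a : T.Pos (2 * k + 1)) (u : Po T) : Set (Po T) :=
  if h : ∃ Θ, CL1_E R s a Θ (Sum.inl u) then h.choose else ∅

theorem CL1_TH_spec (s : T'.Pos (2 * k + 1) → T'.Pos (2 * k + 1 + 1))
    (a : T.Pos (2 * k + 1)) (u : Po T) (hu : u ∈ CL1_G R s a) :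
    CL1_E R s a (CL1_TH R s a u) (Sum.inl u) := by
  have h : ∃ Θ, CL1_E R s a Θ (Sum.inl u) := hu
  unfold CL1_TH
  rw [dif_pos h]
  exact h.choose_spec

theorem CL1_E_unique {s : T'.Pos (2 * k + 1) → T'.Pos (2 * k + 1 + 1)}
    {a : T.Pos (2 * k + 1)} {Θ : Set (Po T)} {e e' : Po T ⊕ Set (Po T)}
    (h : CL1_E R s a Θ e) (h' : CL1_E R s a Θ e') : e = e' := by
  obtain ⟨q, h1, h2⟩ := h
  obtain ⟨q', h3, h4⟩ := h'
  obtain rfl : q = q' := CL1_inj R _ _ _ (h1.trans h3.symm)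
  exact h2.symm.trans h4

/-- The answer is good. -/
theorem CL1_good (σ : Strat T') (q : T'.Pos (2 * k + 1)) (a : T.Pos (2 * k + 1))
    (Θ : Set (Po T)) (h : (R.e (2 * k + 1) q).1 = (a, Θ, Sum.inr ∅)) :
    QS Set.univ 0 ⟨2 * k + 1, a⟩ Θ ∧
    T.prev (2 * k + 1) (R.e (2 * k + 1 + 1) (σ.mv (2 * k + 1) q)).1.1 = a ∧
    Good X Θ ⟨2 * k + 1 + 1, (R.e (2 * k + 1 + 1) (σ.mv (2 * k + 1) q)).1.1⟩
      ⟨2 * k + 1 + 1, (R.e (2 * k + 1 + 1) (σ.mv (2 * k + 1) q)).1.1⟩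
      (R.e (2 * k + 1 + 1) (σ.mv (2 * k + 1) q)).1.2.2 := by
  refine ⟨?_, ?_, ?_⟩
  · have h1 := (R.e (2 * k + 1) q).2.v1 le_rfl
    rw [h] at h1
    have h2 : tr (⟨2 * k + 1, a⟩ : Po T) (2 * k + 1) = a := tr_self (⟨2 * k + 1, a⟩ : Po T)
    simp only [h2] at h1
    exact h1
  · have h1 := congrArg (fun r : Raw T (2 * k + 1) => r.1) (CL1_sec R σ (2 * k + 1) q)
    rw [h] at h1
    exact h1
  · have h1 := (R.e (2 * k + 1 + 1) (σ.mv (2 * k + 1) q)).2.v2 le_rfl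
    rw [CL1_next1 R σ q, h] at h1
    have h2 := tr_self (⟨2 * k + 1 + 1, (R.e (2 * k + 1 + 1) (σ.mv (2 * k + 1) q)).1.1⟩ : Po T)
    have h3 : (⟨2 * k + 2, tr (⟨2 * k + 1 + 1,
        (R.e (2 * k + 1 + 1) (σ.mv (2 * k + 1) q)).1.1⟩ : Po T) (2 * k + 2)⟩ : Po T) =
        ⟨2 * k + 1 + 1, (R.e (2 * k + 1 + 1) (σ.mv (2 * k + 1) q)).1.1⟩ := by
      exact congrArg (fun z : T.Pos (2 * k + 1 + 1) => (⟨2 * k + 1 + 1, z⟩ : Po T)) h2
    rw [h3] at h1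
    exact h1

/-- The moves from length `2 k + 1` on. -/
def CL1_H (n : ℕ) (s : T'.Pos (2 * k + 1) → T'.Pos (2 * k + 1 + 1))
    (t : T'.Pos n → T'.Pos (n + 1)) (a : T.Pos (2 * k + 1))
    (D : (Po T → ℕ) × (Po T → Po T) × Strat T) (q : T.Pos n) (c : T.Pos (n + 1)) : Prop :=
  (D.1 ⟨n, q⟩ = 2 → ∃ q' : T'.Pos n, (R.e n q').1 =
      (q, CL1_TH R s a (D.2.1 ⟨n, q⟩), Sum.inl (D.2.1 ⟨n, q⟩)) ∧ R.pr (n + 1) (t q') = c) ∧
  (D.1 ⟨n, q⟩ = 0 → ∃ (q' : T'.Pos n) (e : Po T ⊕ Set (Po T)), (R.e n q').1 =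
      (q, Sf 1 Set.univ (CL1_G R s a) ⟨2 * k + 1, a⟩, e) ∧ (n = 2 * k + 1 → e = Sum.inr ∅) ∧
      (2 * k + 2 ≤ n → CL1_E R s a (Sf 1 Set.univ (CL1_G R s a) ⟨2 * k + 1, a⟩) e) ∧
      R.pr (n + 1) (t q') = c) ∧
  (D.1 ⟨n, q⟩ = 1 → c = D.2.2.mv n q)

/-- The moves. -/
def CL1_C (n : ℕ) (s : T'.Pos (2 * k + 1) → T'.Pos (2 * k + 1 + 1))
    (t : T'.Pos n → T'.Pos (n + 1)) (q : T.Pos n) (c : T.Pos (n + 1)) : Prop :=
  (n ≤ 2 * k → ∃ q' : T'.Pos n, R.pr n q' = q ∧ R.pr (n + 1) (t q') = c) ∧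
  (2 * k + 1 ≤ n → CL1_H R n s t (tr ⟨n, q⟩ (2 * k + 1))
    (CL1_md (CL1_G R s (tr ⟨n, q⟩ (2 * k + 1))) ⟨2 * k + 1, tr ⟨n, q⟩ (2 * k + 1)⟩) q c)

/-- The map of the strategies. -/
noncomputable def CL1_st (σ : Strat T') : Strat T where
  mv := fun n q => CL1_mv n (CL1_C R n (σ.mv (2 * k + 1)) (σ.mv n) q) q
  sec := fun n q => CL1_mv_sec n _ q

theorem CL1_loc (σ σ' : Strat T') (n : ℕ) (h : ∀ m, m ≤ n → σ.mv m = σ'.mv m) :
    (CL1_st R σ).mv n = (CL1_st R σ').mv n := by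
  funext q
  show CL1_mv n (CL1_C R n (σ.mv (2 * k + 1)) (σ.mv n) q) q =
    CL1_mv n (CL1_C R n (σ'.mv (2 * k + 1)) (σ'.mv n) q) q
  congr 1
  rcases Nat.lt_or_ge (2 * k) n with h1 | h1
  · rw [h (2 * k + 1) (by omega), h n le_rfl]
  · funext c
    unfold CL1_C
    rw [h n le_rfl]
    have h2 : ¬ 2 * k + 1 ≤ n := by omega
    apply propext
    constructor
    · rintro ⟨h3, -⟩
      exact ⟨h3, fun h4 => absurd h4 h2⟩
    · rintro ⟨h3, -⟩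
      exact ⟨h3, fun h4 => absurd h4 h2⟩

theorem CL1_low (hCBI : Stmt_CBI) (σ : Strat T') (n : ℕ) (q : T'.Pos n) (hn : n ≤ 2 * k) :
    R.pr (n + 1) (σ.mv n q) = (CL1_st R σ).mv n (R.pr n q) := by
  have h1 : CL1_C R n (σ.mv (2 * k + 1)) (σ.mv n) (R.pr n q)
      ((CL1_st R σ).mv n (R.pr n q)) := by
    refine CL1_mv_spec n _ _ (R.pr (n + 1) (σ.mv n q)) (CL1_pr_sec R σ n q) ?_
    exact ⟨fun _ => ⟨q, rfl, rfl⟩, fun h => absurd h (by omega)⟩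
  obtain ⟨q', h2, h3⟩ := h1.1 hn
  obtain rfl : q' = q := (hCBI T X k T' R n hn).1 h2
  exact h3

/-- The answer to a legal position from length `2 k + 2` on. -/
theorem CL1_good2 (σ : Strat T') (n : ℕ) (hn : 2 * k + 2 ≤ n) (q : T'.Pos n) (c : T.Pos n)
    (Θ : Set (Po T)) (e : Po T ⊕ Set (Po T)) (h : (R.e n q).1 = (c, Θ, e)) :
    (R.e (n + 1) (σ.mv n q)).1 = (R.pr (n + 1) (σ.mv n q), Θ, e) ∧
    Good X Θ ⟨2 * k + 2, tr ⟨n + 1, R.pr (n + 1) (σ.mv n q)⟩ (2 * k + 2)⟩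
      ⟨n + 1, R.pr (n + 1) (σ.mv n q)⟩ e := by
  have h1 : (R.e (n + 1) (σ.mv n q)).1.2 = (Θ, e) := by
    rw [CL1_next R σ n hn q, h]
  have h2 := (R.e (n + 1) (σ.mv n q)).2.v2 (by omega)
  rw [h1] at h2
  exact ⟨Prod.ext rfl h1, h2⟩

theorem CL1_main (hQSF : Stmt_QSF) (hMOD : Stmt_MOD) (hCBI : Stmt_CBI) (hCRN : Stmt_CRN)
    (σ : Strat T') (x : Run T) (hx : Fol 1 (CL1_st R σ) x) :
    ∃ x' : Run T', Fol 1 σ x' ∧ ∀ n, R.pr n (x'.pos n) = x.pos n := by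
  have ha : ∀ n, 2 * k + 1 ≤ n → tr (⟨n, x.pos n⟩ : Po T) (2 * k + 1) = x.pos (2 * k + 1) :=
    fun n hn => tr_run x n _ hn
  obtain ⟨D, hD⟩ : ∃ D, D = CL1_md (CL1_G R (σ.mv (2 * k + 1)) (x.pos (2 * k + 1)))
    (⟨2 * k + 1, x.pos (2 * k + 1)⟩ : Po T) := ⟨_, rfl⟩
  have hGle : ∀ u ∈ CL1_G R (σ.mv (2 * k + 1)) (x.pos (2 * k + 1)),
      Le (⟨2 * k + 1, x.pos (2 * k + 1)⟩ : Po T) u := by
    rintro u ⟨Θ, q, h1, h2⟩
    obtain ⟨-, g2, g3⟩ := CL1_good R σ q _ Θ h1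
    rw [h2] at g3
    have h3 := CL1_le (2 * k + 1) (R.e (2 * k + 1 + 1) (σ.mv (2 * k + 1) q)).1.1
    rw [g2] at h3
    exact le_trans' h3 g3.2.1
  have hMP : CL1_MP (CL1_G R (σ.mv (2 * k + 1)) (x.pos (2 * k + 1)))
      (⟨2 * k + 1, x.pos (2 * k + 1)⟩ : Po T) D := by
    rw [hD]
    exact CL1_md_spec hMOD _ _ hGle
  -- the moves
  have hmv : ∀ n, 2 * k + 1 ≤ n → n % 2 = 1 → ∀ c, T.prev n c = x.pos n →
      CL1_H R n (σ.mv (2 * k + 1)) (σ.mv n) (x.pos (2 * k + 1)) D (x.pos n) c →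
      CL1_H R n (σ.mv (2 * k + 1)) (σ.mv n) (x.pos (2 * k + 1)) D (x.pos n) (x.pos (n + 1)) := by
    intro n hn hn2 c hc1 hc2
    have h1 : CL1_C R n (σ.mv (2 * k + 1)) (σ.mv n) (x.pos n)
        ((CL1_st R σ).mv n (x.pos n)) := by
      refine CL1_mv_spec n _ _ c hc1 ⟨fun h => absurd h (by omega), fun _ => ?_⟩
      rw [ha n hn, ← hD]
      exact hc2
    have h2 := h1.2 hn
    rw [ha n hn, ← hD, ← hx n hn2] at h2
    exact h2
  have hmode1 : ∀ n, 2 * k + 1 ≤ n → n % 2 = 1 → D.1 ⟨n, x.pos n⟩ = 1 →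
      x.pos (n + 1) = D.2.2.mv n (x.pos n) := by
    intro n hn hn2 h
    refine (hmv n hn hn2 (D.2.2.mv n (x.pos n)) (D.2.2.sec n _)
      ⟨fun h' => ?_, fun h' => ?_, fun _ => rfl⟩).2.2 h
    · rw [h] at h'
      omega
    · rw [h] at h'
      omega
  have hlow : ∀ x' : Run T', (∀ n, R.pr n (x'.pos n) = x.pos n) → ∀ n, n < 2 * k →
      n % 2 = 1 → x'.pos (n + 1) = σ.mv n (x'.pos n) := by
    intro x' hx' n hn hn2
    apply (hCBI T X k T' R (n + 1) (by omega)).1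
    rw [hx' (n + 1), CL1_low R hCBI σ n _ (by omega), hx' n]
    exact hx n hn2
  rcases hMP.2.2 x rfl (fun n h1 h2 => ⟨fun _ => Set.mem_univ _, hmode1 n h1 h2⟩) with
    hA₀ | ⟨N, hN, hNG, -, hNm⟩
  · -- all modes are `0`
    have hA : ∀ n, 2 * k + 1 ≤ n → D.1 ⟨n, x.pos n⟩ = 0 := hA₀
    obtain ⟨Θ, hΘ⟩ : ∃ Θ : Set (Po T), Θ = Sf 1 Set.univ
      (CL1_G R (σ.mv (2 * k + 1)) (x.pos (2 * k + 1))) ⟨2 * k + 1, x.pos (2 * k + 1)⟩ := ⟨_, rfl⟩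
    have hsf : ∀ n, 2 * k + 1 ≤ n → (⟨n, x.pos n⟩ : Po T) ∈ Θ := by
      intro n hn
      rw [hΘ]
      exact hMP.1 _ (hA n hn)
    have hnf : ¬ Frc 1 Set.univ (CL1_G R (σ.mv (2 * k + 1)) (x.pos (2 * k + 1)))
        (⟨2 * k + 1, x.pos (2 * k + 1)⟩ : Po T) := by
      have h1 := hsf (2 * k + 1) le_rfl
      rw [hΘ] at h1
      exact h1.2.2 _ (le_self _) (le_self _)
    obtain ⟨hQ, hQG⟩ := hQSF T 1 0 Set.univ _ _ (by norm_num) (by norm_num) (CL1_kp T 1)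
      (Set.mem_univ _) (fun _ _ _ _ _ => Set.mem_univ _) hnf
    rw [← hΘ] at hQ hQG
    have hv1 : Valid X k (2 * k + 1) (x.pos (2 * k + 1), Θ, Sum.inr ∅) := by
      refine ⟨fun h => absurd h (by omega), fun _ => rfl, fun _ => ?_,
        fun h => absurd h (by omega)⟩
      show QS Set.univ 0 ⟨2 * k + 1, tr ⟨2 * k + 1, x.pos (2 * k + 1)⟩ (2 * k + 1)⟩ Θ
      rw [ha _ le_rfl]
      exact hQ
    obtain ⟨q, hq⟩ := CL1_at R _ _ hv1
    obtain ⟨-, g2, g3⟩ := CL1_good R σ q _ _ hq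
    obtain ⟨e, he⟩ : ∃ e, e = (R.e (2 * k + 1 + 1) (σ.mv (2 * k + 1) q)).1.2.2 := ⟨_, rfl⟩
    rw [← he] at g3
    rcases e with u | Ψ
    · exact absurd (⟨Θ, q, hq, he.symm⟩ : u ∈ CL1_G R (σ.mv (2 * k + 1)) (x.pos (2 * k + 1)))
        (hQG u g3.1)
    have hE : CL1_E R (σ.mv (2 * k + 1)) (x.pos (2 * k + 1)) Θ (Sum.inr Ψ) := ⟨q, hq, he.symm⟩
    have hx2 : x.pos (2 * k + 1 + 1) = R.pr (2 * k + 1 + 1) (σ.mv (2 * k + 1) q) := by
      obtain ⟨q', e', h1, h2, -, h4⟩ := (hmv (2 * k + 1) le_rfl (by omega)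
        (R.pr _ (σ.mv (2 * k + 1) q)) g2 ⟨fun h => by
          rw [hA _ le_rfl] at h
          omega, fun _ => by
          rw [← hΘ]
          exact ⟨q, Sum.inr ∅, hq, fun _ => rfl, fun h => absurd h (by omega), rfl⟩, fun h => by
          rw [hA _ le_rfl] at h
          omega⟩).2.1 (hA _ le_rfl)
      rw [h2 rfl, ← hΘ] at h1
      obtain rfl : q' = q := CL1_inj R _ _ _ (h1.trans hq.symm)
      exact h4.symm
    have g3' : QS Θ 1 ⟨2 * k + 1 + 1, x.pos (2 * k + 1 + 1)⟩ Ψ ∧ (∀ c ∈ Ψ, InX X c) ∧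
        (⟨2 * k + 1 + 1, x.pos (2 * k + 1 + 1)⟩ : Po T) ∈ Ψ := by
      rw [hx2]
      exact g3
    have hstep : ∀ n, 2 * k + 2 ≤ n → n % 2 = 1 → ∀ q3 : T'.Pos n,
        (R.e n q3).1 = (x.pos n, Θ, Sum.inr Ψ) → x.pos (n + 1) = R.pr (n + 1) (σ.mv n q3) := by
      intro n hn hn2 q3 hq3
      have hpr : T.prev n (R.pr (n + 1) (σ.mv n q3)) = x.pos n := by
        rw [CL1_pr_sec]
        show (R.e n q3).1.1 = _
        rw [hq3]
      obtain ⟨q', e', h1, -, h3, h4⟩ := (hmv n (by omega) hn2 (R.pr (n + 1) (σ.mv n q3)) hpr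
        ⟨fun h => by
          rw [hA _ (by omega)] at h
          omega, fun _ => by
          rw [← hΘ]
          exact ⟨q3, Sum.inr Ψ, hq3, fun h => absurd h (by omega), fun _ => hE, rfl⟩, fun h => by
          rw [hA _ (by omega)] at h
          omega⟩).2.1 (hA _ (by omega))
      rw [← hΘ] at h1 h3
      obtain rfl : e' = Sum.inr Ψ := CL1_E_unique R (h3 hn) hE
      obtain rfl : q' = q3 := CL1_inj R _ _ _ (h1.trans hq3.symm)
      exact h4.symm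
    have hΨ : ∀ n, 2 * k + 1 + 1 ≤ n → (⟨n, x.pos n⟩ : Po T) ∈ Ψ := by
      intro n hn
      induction n, hn using Nat.le_induction with
      | base => exact g3'.2.2
      | succ n hn ih =>
        rcases Nat.mod_two_eq_zero_or_one n with h0 | h0
        · refine g3'.1.opp _ ih ?_ ⟨n + 1, x.pos (n + 1)⟩ (hsf _ (by omega)) rfl
            (le_run x (n + 1) n (by omega))
          show n % 2 ≠ 1
          omega
        · have hv : Valid X k n (x.pos n, Θ, Sum.inr Ψ) := by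
            refine ⟨fun h => absurd h (by omega), fun h => absurd h (by omega), fun _ => ?_,
              fun _ => ?_⟩
            · show QS Set.univ 0 ⟨2 * k + 1, tr ⟨n, x.pos n⟩ (2 * k + 1)⟩ Θ
              rw [ha _ (by omega)]
              exact hQ
            · show Good X Θ ⟨2 * k + 2, tr ⟨n, x.pos n⟩ (2 * k + 2)⟩ ⟨n, x.pos n⟩ (Sum.inr Ψ)
              rw [tr_run x n (2 * k + 2) hn]
              exact ⟨g3'.1, g3'.2.1, ih⟩
          obtain ⟨q3, hq3⟩ := CL1_at R _ _ hv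
          have h1 := (CL1_good2 R σ n hn q3 _ _ _ hq3).2.2.2
          rw [← hstep n hn h0 q3 hq3] at h1
          exact h1
    obtain ⟨x', hx1, hx2', hx3⟩ := hCRN T X k T' R x Θ (Sum.inr Ψ) hQ
      (fun n hn => ⟨g3'.1, g3'.2.1, hΨ n hn⟩)
    have hpr : ∀ n, R.pr n (x'.pos n) = x.pos n := by
      intro n
      show (R.e n (x'.pos n)).1.1 = _
      rcases Nat.lt_trichotomy n (2 * k + 1) with h | h | h
      · rw [hx1 n (by omega)]
      · subst h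
        rw [hx2']
      · rw [hx3 n (by omega)]
    refine ⟨x', fun n hn2 => ?_, hpr⟩
    rcases Nat.lt_trichotomy n (2 * k + 1) with h | h | h
    · exact hlow x' hpr n (by omega) hn2
    · subst h
      have hq' : x'.pos (2 * k + 1) = q := CL1_inj R _ _ _ (hx2'.trans hq.symm)
      rw [hq']
      apply CL1_inj R
      refine (hx3 (2 * k + 1 + 1) le_rfl).trans ?_
      refine Prod.ext hx2 (Prod.ext ?_ he)
      rw [CL1_next1 R σ q, hq]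
    · have h3 := hx3 n (by omega)
      apply CL1_inj R
      rw [hx3 (n + 1) (by omega), (CL1_good2 R σ n (by omega) _ _ _ _ h3).1,
        hstep n (by omega) hn2 _ h3]
  · -- some mode is `2`
    obtain ⟨Θ, hΘ⟩ : ∃ Θ : Set (Po T), Θ = CL1_TH R (σ.mv (2 * k + 1)) (x.pos (2 * k + 1))
      ⟨N, x.pos N⟩ := ⟨_, rfl⟩
    have hE := CL1_TH_spec R (σ.mv (2 * k + 1)) (x.pos (2 * k + 1)) ⟨N, x.pos N⟩ hNG
    rw [← hΘ] at hE
    obtain ⟨q, hq, he⟩ := hE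
    obtain ⟨g1, g2, g3⟩ := CL1_good R σ q _ _ hq
    rw [he] at g3
    obtain ⟨g4, g5, g6, -⟩ := g3
    have hN2 : 2 * k + 1 + 1 ≤ N := g5.1
    have hx2 : x.pos (2 * k + 1 + 1) = R.pr (2 * k + 1 + 1) (σ.mv (2 * k + 1) q) := by
      have h1 := g5.2
      rw [tr_run x N _ hN2] at h1
      exact h1
    obtain ⟨x', hx1, hx2', hx3⟩ := hCRN T X k T' R x Θ (Sum.inl ⟨N, x.pos N⟩) g1
      (fun n hn => ⟨g4, le_run x N (2 * k + 2) hN2, g6, (le_total n N).imp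
        (fun h => le_run x N n h) (fun h => le_run x n N h)⟩)
    have hpr : ∀ n, R.pr n (x'.pos n) = x.pos n := by
      intro n
      show (R.e n (x'.pos n)).1.1 = _
      rcases Nat.lt_trichotomy n (2 * k + 1) with h | h | h
      · rw [hx1 n (by omega)]
      · subst h
        rw [hx2']
      · rw [hx3 n (by omega)]
    refine ⟨x', fun n hn2 => ?_, hpr⟩
    rcases Nat.lt_trichotomy n (2 * k + 1) with h | h | h
    · exact hlow x' hpr n (by omega) hn2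
    · subst h
      have hq' : x'.pos (2 * k + 1) = q := CL1_inj R _ _ _ (hx2'.trans hq.symm)
      rw [hq']
      apply CL1_inj R
      refine (hx3 (2 * k + 1 + 1) le_rfl).trans ?_
      refine Prod.ext hx2 (Prod.ext ?_ he.symm)
      rw [CL1_next1 R σ q, hq]
    · have h3 := hx3 n (by omega)
      obtain ⟨h4, h5⟩ := CL1_good2 R σ n (by omega) _ _ _ _ h3
      apply CL1_inj R
      rw [hx3 (n + 1) (by omega), h4]
      refine Prod.ext ?_ rfl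
      show x.pos (n + 1) = R.pr (n + 1) (σ.mv n (x'.pos n))
      rcases Nat.lt_or_ge n N with hnN | hnN
      · rcases h5.2.2.2 with h6 | h6
        · have h7 : tr (⟨N, x.pos N⟩ : Po T) (n + 1) = R.pr (n + 1) (σ.mv n (x'.pos n)) := h6.2
          rw [← h7]
          exact (tr_run x N (n + 1) hnN).symm
        · have h7 : N = n + 1 := le_antisymm h6.1 hnN
          have h8 := le_antisymm' h6 h7
          subst h7
          exact eq_of_heq (Sigma.mk.inj h8).2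
      · obtain ⟨m1, m2⟩ := hNm n hnN
        have hC : CL1_H R n (σ.mv (2 * k + 1)) (σ.mv n) (x.pos (2 * k + 1)) D (x.pos n)
            (R.pr (n + 1) (σ.mv n (x'.pos n))) := by
          refine ⟨fun _ => ⟨x'.pos n, ?_, rfl⟩, fun h' => ?_, fun h' => ?_⟩
          · rw [m2, ← hΘ]
            exact h3
          · rw [m1] at h'
            omega
          · rw [m1] at h'
            omega
        have hpv : T.prev n (R.pr (n + 1) (σ.mv n (x'.pos n))) = x.pos n := by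
          rw [CL1_pr_sec, hpr]
        obtain ⟨q', h6, h7⟩ := (hmv n (by omega) hn2 _ hpv hC).1 m1
        rw [m2, ← hΘ] at h6
        obtain rfl : q' = x'.pos n := CL1_inj R _ _ _ (h6.trans h3.symm)
        exact h7.symm

end

/-- CL1. -/
theorem p_CL1 (hQSF : Stmt_QSF) (hMOD : Stmt_MOD) (hCBI : Stmt_CBI) (hCRN : Stmt_CRN) :
    Stmt_CL1 := by
  intro T X k T' R
  exact ⟨CL1_st R, fun σ σ' n h => CL1_loc R σ σ' n h,
    fun σ n q hn => CL1_low R hCBI σ n q hn.le,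
    fun σ x hx => CL1_main R hQSF hMOD hCBI hCRN σ x hx⟩

end Pool.BD
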