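import Pool.Agent.Work.MP_f36782_bd.Interface

set_option autoImplicit false

/-!
# Block CLO: the covering for a closed set
-/

namespace Pool.BD

theorem p_CLO (hCRE : Stmt_CRE) (hCBI : Stmt_CBI) (hCCL : Stmt_CCL) (hCL0 : Stmt_CL0)
    (hCL1 : Stmt_CL1) : Stmt_CLO := by
  classical
  intro T X k hX
  obtain ⟨T', ⟨R⟩⟩ := hCRE T X k
  obtain ⟨s0, a0, b0, c0⟩ := hCL0 T X k T' R
  obtain ⟨s1, a1, b1, c1⟩ := hCL1 T X k T' R
  let c : Cov T' T :=
    { pr := R.pr
      comm := fun n q => by
        show (R.e n (T'.prev n q)).1.1 = T.prev n (R.e (n + 1) q).1.1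
        rw [R.prev n q]
        rfl
      st := fun p => if p = 1 then s1 else s0
      loc := fun p σ σ' n h => by
        by_cases hp : p = 1
        · simp only [hp, if_true]
          exact a1 σ σ' n h
        · simp only [hp, if_false]
          exact a0 σ σ' n h
      lift := fun p σ x hp h => by
        by_cases hp1 : p = 1
        · subst hp1
          simp only [if_true] at h
          exact c1 σ x h
        · have hp0 : p = 0 := by omega
          subst hp0
          simp only [hp1, if_false] at h
          exact c0 σ x h }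
  refine ⟨T', c, ⟨fun n hn => hCBI T X k T' R n hn, fun p σ n q hn => ?_⟩, ?_⟩
  · show R.pr (n + 1) (σ.mv n q) = ((if p = 1 then s1 else s0) σ).mv n (R.pr n q)
    by_cases hp : p = 1
    · rw [if_pos hp]
      exact b1 σ n q hn
    · rw [if_neg hp]
      exact b0 σ n q hn
  · have h := hCCL T X k T' R hX
    have h1 : {x : Run T' | c.run x ∈ X} =
        {x : Run T' | ∃ y ∈ X, ∀ n, y.pos n = R.pr n (x.pos n)} := by
      ext x
      constructor
      · intro hx
        exact ⟨c.run x, hx, fun n => rfl⟩
      · rintro ⟨y, hy, hyx⟩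
        have h2 : c.run x = y := Run.ext (funext fun n => (hyx n).symm)
        show c.run x ∈ X
        rw [h2]
        exact hy
    rw [h1]
    exact h

end Pool.BD
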