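import Pool.Agent.Work.MP_f36782_bd.Interface

set_option autoImplicit false

/-! Block CPV: the previous raw position of a legal position is legal. -/

namespace Pool.BD

theorem CPV_le {T : Tree} (n : ℕ) (q : T.Pos (n + 1)) :
    Le (⟨n, T.prev n q⟩ : Po T) ⟨n + 1, q⟩ := by
  refine ⟨Nat.le_succ n, ?_⟩
  show tr (⟨n + 1, q⟩ : Po T) n = T.prev n q
  rw [tr_prev n q n le_rfl]
  exact tr_self (⟨n, T.prev n q⟩ : Po T)

theorem CPV_good {T : Tree} (X : Set (Run T)) (Θ : Set (Po T)) (a b b' : Po T)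
    (ha : Le a b) (hb : Le b' b) (h1 : a.1 ≤ b'.1)
    (e : Po T ⊕ Set (Po T)) (h : Good X Θ a b e) : Good X Θ a b' e := by
  have hab : Le a b' := le_total' ha hb h1
  cases e with
  | inl u =>
    obtain ⟨h3, h4, h5, h6⟩ := h
    refine ⟨h3, h4, h5, ?_⟩
    rcases h6 with h6 | h6
    · exact Or.inl (le_trans' hb h6)
    · rcases Nat.lt_or_ge b'.1 u.1 with h7 | h7
      · exact Or.inl (le_total' hb h6 h7.le)
      · exact Or.inr (le_total' h6 hb h7)
  | inr Ψ =>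
    obtain ⟨h3, h4, h5⟩ := h
    exact ⟨h3, h4, h3.down b h5 b' hab hb⟩

theorem p_CPV : Stmt_CPV := by
  intro T X k n r h
  have e1 : (rawPrev T k n r).1 = T.prev n r.1 := rfl
  have e2 : (rawPrev T k n r).2.1 = if n ≤ 2 * k then ∅ else r.2.1 := rfl
  have e3 : (rawPrev T k n r).2.2 = if n ≤ 2 * k + 1 then Sum.inr ∅ else r.2.2 := rfl
  refine ⟨fun hn => ?_, fun hn => ?_, fun hn => ?_, fun hn => ?_⟩
  · rw [e2, if_pos hn]
  · rw [e3, if_pos hn]
  · rw [e1, e2, if_neg (by omega)]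
    have h1 := h.v1 (by omega)
    rw [tr_prev n r.1 (2 * k + 1) hn] at h1
    exact h1
  · rw [e1, e2, e3, if_neg (by omega), if_neg (by omega)]
    have h1 := h.v2 (by omega)
    rw [← tr_prev n r.1 (2 * k + 2) hn]
    have h2 : 2 * k + 2 ≤ n + 1 := by omega
    exact CPV_good X r.2.1 _ ⟨n + 1, r.1⟩ ⟨n, T.prev n r.1⟩ ⟨h2, rfl⟩ (CPV_le n r.1) hn _ h1

end Pool.BD
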