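import Pool.Agent.Work.MP_f36782_bd.Interface

set_option autoImplicit false

namespace Pool.BD

theorem p_CRE (hV : Stmt_CPV) (hS : Stmt_CSU) : Stmt_CRE := by
  intro T X k
  have hz : ∀ r : Raw T 0, Valid X k 0 r → r.2.1 = ∅ ∧ r.2.2 = Sum.inr ∅ := fun r hr =>
    ⟨hr.z1 (Nat.zero_le _), hr.z2 (Nat.zero_le _)⟩
  let T' : Tree :=
    { Pos := fun n => {r : Raw T n // Valid X k n r}
      prev := fun n r => ⟨rawPrev T k n r.1, hV T X k n r.1 r.2⟩
      surj := fun n r => by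
        obtain ⟨r', h1, h2⟩ := hS T X k n r.1 r.2
        exact ⟨⟨r', h1⟩, Subtype.ext h2⟩
      ne := by
        obtain ⟨q⟩ := T.ne
        exact ⟨⟨(q, ∅, Sum.inr ∅), ⟨fun _ => rfl, fun _ => rfl, fun h => absurd h (by omega),
          fun h => absurd h (by omega)⟩⟩⟩
      sub := by
        refine ⟨?_⟩
        rintro ⟨⟨q, Θ, e⟩, hr⟩ ⟨⟨q', Θ', e'⟩, hr'⟩
        have h1 : q = q' := T.sub.elim q q'
        obtain ⟨h2, h3⟩ := hz _ hr
        obtain ⟨h4, h5⟩ := hz _ hr'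
        dsimp only at h2 h3 h4 h5
        subst h1 h2 h3 h4 h5
        rfl }
  exact ⟨T', ⟨{ e := fun n => Equiv.refl _, prev := fun n q => rfl }⟩⟩

end Pool.BD
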