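import Pool.Agent.Work.MP_f36782_bd.Interface

set_option autoImplicit false

namespace Pool.BD

open Classical in
/-- the raw position of length `n` of the lifted run -/
noncomputable def CRN_raw {T : Tree} (k : ℕ) (x : Run T) (Θ : Set (Po T)) (e : Po T ⊕ Set (Po T))
    (n : ℕ) : Raw T n :=
  (x.pos n, if n ≤ 2 * k then ∅ else Θ, if n ≤ 2 * k + 1 then Sum.inr ∅ else e)

theorem CRN_valid {T : Tree} (X : Set (Run T)) (k : ℕ) (x : Run T) (Θ : Set (Po T))
    (e : Po T ⊕ Set (Po T)) (h1 : QS Set.univ 0 ⟨2 * k + 1, x.pos (2 * k + 1)⟩ Θ)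
    (h2 : ∀ n, 2 * k + 2 ≤ n → Good X Θ ⟨2 * k + 2, x.pos (2 * k + 2)⟩ ⟨n, x.pos n⟩ e) (n : ℕ) :
    Valid X k n (CRN_raw k x Θ e n) := by
  classical
  refine ⟨?_, ?_, ?_, ?_⟩
  · intro h
    simp only [CRN_raw]
    rw [if_pos h]
  · intro h
    simp only [CRN_raw]
    rw [if_pos h]
  · intro h
    simp only [CRN_raw]
    rw [if_neg (by omega : ¬ n ≤ 2 * k), tr_run x n (2 * k + 1) h]
    exact h1
  · intro h
    simp only [CRN_raw]
    rw [if_neg (by omega : ¬ n ≤ 2 * k), if_neg (by omega : ¬ n ≤ 2 * k + 1),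
      tr_run x n (2 * k + 2) h]
    exact h2 n h

theorem CRN_prev {T : Tree} (k : ℕ) (x : Run T) (Θ : Set (Po T)) (e : Po T ⊕ Set (Po T)) (n : ℕ) :
    rawPrev T k n (CRN_raw k x Θ e (n + 1)) = CRN_raw k x Θ e n := by
  classical
  simp only [CRN_raw, rawPrev]
  rw [x.prev n]
  congr 1
  congr 1
  · by_cases h : n ≤ 2 * k
    · rw [if_pos h, if_pos h]
    · rw [if_neg h, if_neg h, if_neg (by omega : ¬ n + 1 ≤ 2 * k)]
  · by_cases h : n ≤ 2 * k + 1
    · rw [if_pos h, if_pos h]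
    · rw [if_neg h, if_neg h, if_neg (by omega : ¬ n + 1 ≤ 2 * k + 1)]

theorem p_CRN : Stmt_CRN := by
  classical
  intro T X k T' R x Θ e h1 h2
  let x' : Run T' :=
    ⟨fun n => (R.e n).symm ⟨CRN_raw k x Θ e n, CRN_valid X k x Θ e h1 h2 n⟩, fun n => by
      apply (R.e n).injective
      apply Subtype.ext
      rw [R.prev, Equiv.apply_symm_apply, Equiv.apply_symm_apply]
      exact CRN_prev k x Θ e n⟩
  have hx : ∀ n, (R.e n (x'.pos n)).1 = CRN_raw k x Θ e n := by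
    intro n
    show (R.e n ((R.e n).symm ⟨CRN_raw k x Θ e n, CRN_valid X k x Θ e h1 h2 n⟩)).1 = _
    rw [Equiv.apply_symm_apply]
  refine ⟨x', ?_, ?_, ?_⟩
  · intro n hn
    rw [hx]
    simp only [CRN_raw]
    rw [if_pos hn, if_pos (by omega : n ≤ 2 * k + 1)]
  · rw [hx]
    simp only [CRN_raw]
    rw [if_neg (by omega : ¬ 2 * k + 1 ≤ 2 * k), if_pos (le_refl _)]
  · intro n hn
    rw [hx]
    simp only [CRN_raw]
    rw [if_neg (by omega : ¬ n ≤ 2 * k), if_neg (by omega : ¬ n ≤ 2 * k + 1)]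

end Pool.BD
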