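import Pool.Agent.Work.MP_f36782_bd.Interface

set_option autoImplicit false

namespace Pool.BD

theorem CSU_le {T : Tree} {n : ℕ} {q : T.Pos n} {q' : T.Pos (n + 1)} (h : T.prev n q' = q) :
    Le (⟨n, q⟩ : Po T) ⟨n + 1, q'⟩ := by
  obtain ⟨x, rfl⟩ := exists_run T (n + 1) q'
  rw [x.prev] at h
  subst h
  exact le_run x (n + 1) n (by omega)

theorem CSU_prev {T : Tree} {n : ℕ} {q : T.Pos n} {q' : T.Pos (n + 1)}
    (h : Le (⟨n, q⟩ : Po T) ⟨n + 1, q'⟩) : T.prev n q' = q := by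
  have h1 : tr (⟨n + 1, q'⟩ : Po T) n = q := h.2
  rw [tr_prev n q' n le_rfl] at h1
  rw [← h1]
  exact (tr_self (⟨n, T.prev n q'⟩ : Po T)).symm

theorem CSU_ex {T : Tree} {n : ℕ} {q : T.Pos n} {c : Po T} (hc : c.1 = n + 1)
    (h : Le (⟨n, q⟩ : Po T) c) : ∃ q' : T.Pos (n + 1), c = ⟨n + 1, q'⟩ ∧ T.prev n q' = q := by
  obtain ⟨m, q'⟩ := c
  obtain rfl : m = n + 1 := hc
  exact ⟨q', rfl, CSU_prev h⟩

theorem CSU_next {T : Tree} (b : Po T) : ∃ c : Po T, c.1 = b.1 + 1 ∧ Le b c := by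
  obtain ⟨n, q⟩ := b
  obtain ⟨q', h⟩ := T.surj n q
  exact ⟨⟨n + 1, q'⟩, rfl, CSU_le h⟩

/-- the last case -/
theorem CSU_big {T : Tree} {X : Set (Run T)} {k n : ℕ} {r : Raw T n} (hr : Valid X k n r)
    (hn : 2 * k + 2 ≤ n) (q' : T.Pos (n + 1)) (hq : T.prev n q' = r.1)
    (hg : Good X r.2.1 ⟨2 * k + 2, tr ⟨n, r.1⟩ (2 * k + 2)⟩ ⟨n + 1, q'⟩ r.2.2) :
    ∃ r' : Raw T (n + 1), Valid X k (n + 1) r' ∧ rawPrev T k n r' = r := by
  have ht : ∀ m, m ≤ n → tr (⟨n + 1, q'⟩ : Po T) m = tr ⟨n, r.1⟩ m := by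
    intro m hm
    rw [tr_prev n q' m hm, hq]
  refine ⟨(q', r.2.1, r.2.2), ⟨fun h => absurd h (by omega), fun h => absurd h (by omega),
    fun _ => ?_, fun _ => ?_⟩, ?_⟩
  · show QS Set.univ 0 ⟨2 * k + 1, tr (⟨n + 1, q'⟩ : Po T) (2 * k + 1)⟩ r.2.1
    rw [ht _ (by omega)]
    exact hr.v1 (by omega)
  · show Good X r.2.1 ⟨2 * k + 2, tr (⟨n + 1, q'⟩ : Po T) (2 * k + 2)⟩ ⟨n + 1, q'⟩ r.2.2
    rw [ht _ (by omega)]
    exact hg
  · unfold rawPrev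
    rw [if_neg (by omega), if_neg (by omega), hq]

theorem p_CSU : Stmt_CSU := by
  intro T X k n r hr
  rcases Nat.lt_or_ge n (2 * k) with h1 | h1
  · obtain ⟨q', hq⟩ := T.surj n r.1
    refine ⟨(q', ∅, Sum.inr ∅), ⟨fun _ => rfl, fun _ => rfl, fun h => absurd h (by omega),
      fun h => absurd h (by omega)⟩, ?_⟩
    unfold rawPrev
    rw [if_pos (by omega), if_pos (by omega), hq, ← hr.z2 (by omega), ← hr.z1 (by omega)]
  rcases h1.eq_or_lt with h2 | h2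
  · -- I chooses a quasi-strategy
    subst h2
    obtain ⟨q', hq⟩ := T.surj (2 * k) r.1
    refine ⟨(q', {b | Le (⟨2 * k + 1, q'⟩ : Po T) b}, Sum.inr ∅),
      ⟨fun h => absurd h (by omega), fun _ => rfl, fun _ => ?_,
      fun h => absurd h (by omega)⟩, ?_⟩
    · show QS Set.univ 0 ⟨2 * k + 1, tr (⟨2 * k + 1, q'⟩ : Po T) (2 * k + 1)⟩
        {b | Le (⟨2 * k + 1, q'⟩ : Po T) b}
      have ht : tr (⟨2 * k + 1, q'⟩ : Po T) (2 * k + 1) = q' := tr_self (⟨2 * k + 1, q'⟩ : Po T)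
      rw [ht]
      refine ⟨le_self _, fun b hb => ⟨Set.mem_univ _, hb⟩, fun b _ c hc _ => hc,
        fun b hb _ c _ _ hbc => le_trans' hb hbc, fun b hb _ => ?_⟩
      obtain ⟨c, hc1, hc2⟩ := CSU_next b
      exact ⟨c, le_trans' hb hc2, hc1, hc2⟩
    · unfold rawPrev
      rw [if_pos (by omega), if_pos (by omega), hq]
      conv_lhs => rw [← hr.z2 (by omega), ← hr.z1 (by omega)]
  rcases Nat.lt_or_ge n (2 * k + 2) with h3 | h3
  · -- II chooses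
    obtain rfl : n = 2 * k + 1 := by omega
    obtain ⟨q', hq⟩ := T.surj (2 * k + 1) r.1
    have hQ := hr.v1 le_rfl
    have ht : tr (⟨2 * k + 1, r.1⟩ : Po T) (2 * k + 1) = r.1 := tr_self (⟨2 * k + 1, r.1⟩ : Po T)
    rw [ht] at hQ
    have hle : Le (⟨2 * k + 1, r.1⟩ : Po T) ⟨2 * k + 2, q'⟩ := CSU_le hq
    have hmem : (⟨2 * k + 2, q'⟩ : Po T) ∈ r.2.1 :=
      hQ.opp _ hQ.root (by show (2 * k + 1) % 2 ≠ 0; omega) _ (Set.mem_univ _) rfl hle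
    have ht1 : tr (⟨2 * k + 2, q'⟩ : Po T) (2 * k + 1) = r.1 := by
      rw [tr_prev (2 * k + 1) q' (2 * k + 1) le_rfl, hq]
      exact ht
    have ht2 : tr (⟨2 * k + 2, q'⟩ : Po T) (2 * k + 2) = q' := tr_self (⟨2 * k + 2, q'⟩ : Po T)
    have key : ∃ e : Po T ⊕ Set (Po T), Good X r.2.1 ⟨2 * k + 2, q'⟩ ⟨2 * k + 2, q'⟩ e := by
      by_cases hu : ∃ u ∈ r.2.1, Le (⟨2 * k + 2, q'⟩ : Po T) u ∧ ¬ InX X u
      · obtain ⟨u, hu1, hu2, hu3⟩ := hu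
        exact ⟨Sum.inl u, hu1, hu2, hu3, Or.inl hu2⟩
      · push Not at hu
        refine ⟨Sum.inr {b | b ∈ r.2.1 ∧ Le (⟨2 * k + 2, q'⟩ : Po T) b},
          ⟨⟨hmem, le_self _⟩, fun b hb => hb, fun b hb c hc hcb =>
            ⟨hQ.down b hb.1 c (le_trans' hle hc) hcb, hc⟩,
            fun b hb _ c hc _ hbc => ⟨hc, le_trans' hb.2 hbc⟩, fun b hb h1 => ?_⟩,
          fun c hc => hu c hc.1 hc.2, ⟨hmem, le_self _⟩⟩
        obtain ⟨c, hc1, hc2⟩ := CSU_next b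
        exact ⟨c, ⟨hQ.opp b hb.1 (by omega) c (Set.mem_univ _) hc1 hc2, le_trans' hb.2 hc2⟩,
          hc1, hc2⟩
    obtain ⟨e, he⟩ := key
    refine ⟨(q', r.2.1, e), ⟨fun h => absurd h (by omega), fun h => absurd h (by omega),
      fun _ => ?_, fun _ => ?_⟩, ?_⟩
    · show QS Set.univ 0 ⟨2 * k + 1, tr (⟨2 * k + 2, q'⟩ : Po T) (2 * k + 1)⟩ r.2.1
      rw [ht1]
      exact hQ
    · show Good X r.2.1 ⟨2 * k + 2, tr (⟨2 * k + 2, q'⟩ : Po T) (2 * k + 2)⟩ ⟨2 * k + 2, q'⟩ e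
      rw [ht2]
      exact he
    · unfold rawPrev
      rw [if_neg (by omega), if_pos (by omega), hq, ← hr.z2 le_rfl]
  · -- the later positions
    have hQ := hr.v1 (by omega)
    have hG := hr.v2 h3
    obtain ⟨q, Θ, e⟩ := r
    cases e with
    | inl u =>
      obtain ⟨hu1, hu2, hu3, hu4⟩ := hG
      by_cases hlt : Le (⟨n, q⟩ : Po T) u ∧ n < u.1
      · obtain ⟨hl, hlt⟩ := hlt
        refine CSU_big hr h3 (tr u (n + 1)) ?_ ⟨hu1, hu2, hu3, Or.inl ⟨hlt, rfl⟩⟩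
        show T.prev n (tr u (n + 1)) = q
        rw [tr, (thr u).prev]
        exact hl.2
      · have hub : Le u (⟨n, q⟩ : Po T) := by
          rcases hu4 with h | h
          · have h5 : u.1 ≤ n := not_lt.1 fun h6 => hlt ⟨h, h6⟩
            have h6 : (⟨n, q⟩ : Po T) = u := le_antisymm' h (le_antisymm h.1 h5)
            rw [← h6]
            exact le_self _
          · exact h
        obtain ⟨q', hq⟩ := T.surj n q
        exact CSU_big hr h3 q' hq ⟨hu1, hu2, hu3, Or.inr (le_trans' hub (CSU_le hq))⟩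
    | inr Ψ =>
      obtain ⟨hP1, hP2, hP3⟩ := hG
      have key : ∃ c ∈ Ψ, c.1 = n + 1 ∧ Le (⟨n, q⟩ : Po T) c := by
        rcases Nat.mod_two_eq_zero_or_one n with h5 | h5
        · have hb : (⟨n, q⟩ : Po T) ∈ Θ := (hP1.mem _ hP3).1
          obtain ⟨c, hc1, hc2, hc3⟩ := hQ.own _ hb h5
          exact ⟨c, hP1.opp _ hP3 (by show n % 2 ≠ 1; omega) c hc1 hc2 hc3, hc2, hc3⟩
        · exact hP1.own _ hP3 h5
      obtain ⟨c, hc1, hc2, hc3⟩ := key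
      obtain ⟨q', rfl, hq⟩ := CSU_ex hc2 hc3
      exact CSU_big hr h3 q' hq ⟨hP1, hP2, hc1⟩

end Pool.BD
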