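import Pool.Agent.Work.MP_f36782_bd.Interface

set_option autoImplicit false

/-!
# Block FR1: forced positions, a move of the player
-/

namespace Pool.BD

theorem FR1_prev {T : Tree} {n : ℕ} {q : T.Pos n} {r : T.Pos (n + 1)}
    (h : Le (⟨n, q⟩ : Po T) ⟨n + 1, r⟩) : T.prev n r = q := by
  have h1 : tr (⟨n + 1, r⟩ : Po T) n = q := h.2
  rw [tr_prev n r n le_rfl] at h1
  rw [← h1]
  exact (tr_self (⟨n, T.prev n r⟩ : Po T)).symm

theorem FR1_next {T : Tree} {n : ℕ} {q : T.Pos n} {c : Po T} (h1 : c.1 = n + 1)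
    (h : Le (⟨n, q⟩ : Po T) c) : ∃ r : T.Pos (n + 1), T.prev n r = q ∧ (⟨n + 1, r⟩ : Po T) = c := by
  obtain ⟨m, r⟩ := c
  obtain rfl : m = n + 1 := h1
  exact ⟨r, FR1_prev h, rfl⟩

theorem p_FR1 : Stmt_FR1 := by
  classical
  intro T p S G b c hKp hb hcS hc1 hbc hc
  obtain ⟨σ, hσ1, hσ2⟩ := hc
  have hex : ∀ (n : ℕ) (q : T.Pos n), ∃ r : T.Pos (n + 1), T.prev n r = q ∧
      ((⟨n, q⟩ : Po T) = b → (⟨n + 1, r⟩ : Po T) = c) ∧
      (Le c ⟨n, q⟩ → r = σ.mv n q) ∧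
      ((⟨n, q⟩ : Po T) ∈ S → n % 2 = p → ¬ Le c ⟨n, q⟩ → (⟨n + 1, r⟩ : Po T) ∈ S) := by
    intro n q
    by_cases h1 : (⟨n, q⟩ : Po T) = b
    · subst h1
      obtain ⟨r, hr1, hr2⟩ := FR1_next hc1 hbc
      refine ⟨r, hr1, fun _ => hr2, fun h => ?_, fun _ _ _ => hr2 ▸ hcS⟩
      exfalso
      have h2 : c.1 ≤ n := h.1
      have h3 : c.1 = n + 1 := hc1
      omega
    · by_cases h2 : Le c ⟨n, q⟩
      · exact ⟨σ.mv n q, σ.sec n q, fun h => absurd h h1, fun _ => rfl, fun _ _ h => absurd h2 h⟩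
      · by_cases h3 : (⟨n, q⟩ : Po T) ∈ S ∧ n % 2 = p
        · obtain ⟨c', hc', hc1', hl⟩ := hKp ⟨n, q⟩ h3.1 h3.2
          obtain ⟨r, hr1, hr2⟩ := FR1_next hc1' hl
          exact ⟨r, hr1, fun h => absurd h h1, fun h => absurd h h2, fun _ _ _ => hr2 ▸ hc'⟩
        · obtain ⟨r, hr⟩ := T.surj n q
          exact ⟨r, hr, fun h => absurd h h1, fun h => absurd h h2,
            fun h4 h5 _ => absurd ⟨h4, h5⟩ h3⟩
  choose f hf1 hf2 hf3 hf4 using hex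
  refine ⟨⟨f, hf1⟩, ?_, ?_⟩
  · intro d hd hbd hdp
    by_cases h : Le c d
    · have h2 : f d.1 d.2 = σ.mv d.1 d.2 := hf3 d.1 d.2 h
      show (⟨d.1 + 1, f d.1 d.2⟩ : Po T) ∈ S
      rw [h2]
      exact hσ1 d hd h hdp
    · exact hf4 d.1 d.2 hd hdp h
  · intro x hx hfol hS
    have h1 : (⟨b.1 + 1, x.pos (b.1 + 1)⟩ : Po T) = c := by
      have h2 : x.pos (b.1 + 1) = f b.1 (x.pos b.1) := hfol b.1 le_rfl hb
      rw [h2]
      apply hf2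
      rw [hx]
    subst h1
    refine hσ2 x rfl (fun n hn hnp => ?_) (fun n hn => hS n ((Nat.le_succ _).trans hn))
    have h2 : x.pos (n + 1) = f n (x.pos n) := hfol n ((Nat.le_succ _).trans hn) hnp
    rw [h2]
    exact hf3 n (x.pos n) (le_run x n (b.1 + 1) hn)

end Pool.BD
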