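import Pool.Agent.Work.MP_f36782_bd.Interface

set_option autoImplicit false

/-!
# Block FR2: forced positions, a move of the opponent
-/

namespace Pool.BD

theorem FR2_prev {T : Tree} {n : ℕ} {q : T.Pos n} {r : T.Pos (n + 1)}
    (h : Le (⟨n, q⟩ : Po T) ⟨n + 1, r⟩) : T.prev n r = q := by
  have h1 : tr (⟨n + 1, r⟩ : Po T) n = q := h.2
  rw [tr_prev n r n le_rfl] at h1
  rw [← h1]
  exact (tr_self (⟨n, T.prev n r⟩ : Po T)).symm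

theorem FR2_next {T : Tree} {n : ℕ} {q : T.Pos n} {c : Po T} (h1 : c.1 = n + 1)
    (h : Le (⟨n, q⟩ : Po T) c) : ∃ r : T.Pos (n + 1), T.prev n r = q ∧ (⟨n + 1, r⟩ : Po T) = c := by
  obtain ⟨m, r⟩ := c
  obtain rfl : m = n + 1 := h1
  exact ⟨r, FR2_prev h, rfl⟩

theorem p_FR2 : Stmt_FR2 := by
  classical
  intro T p S G b hKp hb hall
  have hF : ∀ c : Po T, ∃ σ : Strat T, (c ∈ S ∧ c.1 = b.1 + 1 ∧ Le b c) →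
      (∀ d ∈ S, Le c d → d.1 % 2 = p → (⟨d.1 + 1, σ.mv d.1 d.2⟩ : Po T) ∈ S) ∧
      ∀ x : Run T, x.pos c.1 = c.2 →
        (∀ n, c.1 ≤ n → n % 2 = p → x.pos (n + 1) = σ.mv n (x.pos n)) →
        (∀ n, c.1 ≤ n → (⟨n, x.pos n⟩ : Po T) ∈ S) → ∃ m, (⟨m, x.pos m⟩ : Po T) ∈ G := by
    intro c
    by_cases h : c ∈ S ∧ c.1 = b.1 + 1 ∧ Le b c
    · obtain ⟨σ, hσ⟩ := hall c h.1 h.2.1 h.2.2
      exact ⟨σ, fun _ => hσ⟩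
    · obtain ⟨σ⟩ := exists_strat T
      exact ⟨σ, fun h' => absurd h' h⟩
  choose F hF using hF
  have hex : ∀ (n : ℕ) (q : T.Pos n), ∃ r : T.Pos (n + 1), T.prev n r = q ∧
      (b.1 < n → (⟨b.1 + 1, tr ⟨n, q⟩ (b.1 + 1)⟩ : Po T) ∈ S →
        Le b ⟨b.1 + 1, tr ⟨n, q⟩ (b.1 + 1)⟩ →
        r = (F ⟨b.1 + 1, tr ⟨n, q⟩ (b.1 + 1)⟩).mv n q) ∧
      ((⟨n, q⟩ : Po T) ∈ S → n % 2 = p →
        ¬ (b.1 < n ∧ (⟨b.1 + 1, tr ⟨n, q⟩ (b.1 + 1)⟩ : Po T) ∈ S ∧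
          Le b ⟨b.1 + 1, tr ⟨n, q⟩ (b.1 + 1)⟩) → (⟨n + 1, r⟩ : Po T) ∈ S) := by
    intro n q
    by_cases h1 : b.1 < n ∧ (⟨b.1 + 1, tr ⟨n, q⟩ (b.1 + 1)⟩ : Po T) ∈ S ∧
        Le b ⟨b.1 + 1, tr ⟨n, q⟩ (b.1 + 1)⟩
    · exact ⟨(F ⟨b.1 + 1, tr ⟨n, q⟩ (b.1 + 1)⟩).mv n q, Strat.sec _ n q, fun _ _ _ => rfl,
        fun _ _ h => absurd h1 h⟩
    · by_cases h3 : (⟨n, q⟩ : Po T) ∈ S ∧ n % 2 = p
      · obtain ⟨c', hc', hc1', hl⟩ := hKp ⟨n, q⟩ h3.1 h3.2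
        obtain ⟨r, hr1, hr2⟩ := FR2_next hc1' hl
        exact ⟨r, hr1, fun h4 h5 h6 => absurd ⟨h4, h5, h6⟩ h1, fun _ _ _ => hr2 ▸ hc'⟩
      · obtain ⟨r, hr⟩ := T.surj n q
        exact ⟨r, hr, fun h4 h5 h6 => absurd ⟨h4, h5, h6⟩ h1, fun h4 h5 _ => absurd ⟨h4, h5⟩ h3⟩
  choose f hf1 hf2 hf3 using hex
  refine ⟨⟨f, hf1⟩, ?_, ?_⟩
  · intro d hd hbd hdp
    have hlt : b.1 < d.1 := by
      rcases Nat.lt_or_ge b.1 d.1 with h | h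
      · exact h
      · exfalso
        have h2 := hbd.1
        have h3 : b.1 = d.1 := by omega
        exact hb (h3 ▸ hdp)
    have hcd : Le (⟨b.1 + 1, tr d (b.1 + 1)⟩ : Po T) d := ⟨hlt, rfl⟩
    have hbc : Le b (⟨b.1 + 1, tr d (b.1 + 1)⟩ : Po T) :=
      le_total' hbd hcd (Nat.le_succ _)
    by_cases h : (⟨b.1 + 1, tr d (b.1 + 1)⟩ : Po T) ∈ S
    · have h2 : f d.1 d.2 = (F ⟨b.1 + 1, tr d (b.1 + 1)⟩).mv d.1 d.2 := hf2 d.1 d.2 hlt h hbc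
      show (⟨d.1 + 1, f d.1 d.2⟩ : Po T) ∈ S
      rw [h2]
      exact (hF ⟨b.1 + 1, tr d (b.1 + 1)⟩ ⟨h, rfl, hbc⟩).1 d hd hcd hdp
    · exact hf3 d.1 d.2 hd hdp (fun h2 => h h2.2.1)
  · intro x hx hfol hS
    have hbx : b = ⟨b.1, x.pos b.1⟩ := by
      rw [hx]
    have hcS : (⟨b.1 + 1, x.pos (b.1 + 1)⟩ : Po T) ∈ S := hS (b.1 + 1) (Nat.le_succ _)
    have hbc : Le b (⟨b.1 + 1, x.pos (b.1 + 1)⟩ : Po T) := by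
      have h := le_run x (b.1 + 1) b.1 (Nat.le_succ _)
      rw [← hbx] at h
      exact h
    refine (hF ⟨b.1 + 1, x.pos (b.1 + 1)⟩ ⟨hcS, rfl, hbc⟩).2 x rfl (fun n hn hnp => ?_)
      (fun n hn => hS n ((Nat.le_succ _).trans hn))
    have h2 : x.pos (n + 1) = f n (x.pos n) := hfol n ((Nat.le_succ _).trans hn) hnp
    have h3 : tr (⟨n, x.pos n⟩ : Po T) (b.1 + 1) = x.pos (b.1 + 1) := tr_run x n (b.1 + 1) hn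
    have h4 := hf2 n (x.pos n) hn
    rw [h3] at h4
    rw [h2]
    exact h4 hcS hbc

end Pool.BD
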