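import Pool.Agent.Work.MP_f36782_bd.Interface

set_option autoImplicit false

/-!
# Block FR3: positions after an element of `G` are forced
-/

namespace Pool.BD

theorem p_FR3 : Stmt_FR3 := by
  classical
  intro T p S G b hKp hG
  obtain ⟨m, hm, hmG⟩ := hG
  have hex : ∀ (n : ℕ) (q : T.Pos n), ∃ r : T.Pos (n + 1), T.prev n r = q ∧
      ((⟨n, q⟩ : Po T) ∈ S → n % 2 = p → (⟨n + 1, r⟩ : Po T) ∈ S) := by
    intro n q
    by_cases h3 : (⟨n, q⟩ : Po T) ∈ S ∧ n % 2 = p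
    · obtain ⟨⟨k, r⟩, hc', hc1', hl⟩ := hKp ⟨n, q⟩ h3.1 h3.2
      obtain rfl : k = n + 1 := hc1'
      refine ⟨r, ?_, fun _ _ => hc'⟩
      have h1 : tr (⟨n + 1, r⟩ : Po T) n = q := hl.2
      rw [tr_prev n r n le_rfl] at h1
      rw [← h1]
      exact (tr_self (⟨n, T.prev n r⟩ : Po T)).symm
    · obtain ⟨r, hr⟩ := T.surj n q
      exact ⟨r, hr, fun h4 h5 => absurd ⟨h4, h5⟩ h3⟩
  choose f hf1 hf2 using hex
  refine ⟨⟨f, hf1⟩, fun d hd _ hdp => hf2 d.1 d.2 hd hdp, ?_⟩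
  intro x hx _ _
  refine ⟨m, ?_⟩
  have h1 : x.pos m = tr b m := run_unique x (thr b) b.1 m hm (hx.trans (thr_pos b).symm)
  rw [h1]
  exact hmG

end Pool.BD
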