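import Pool.Agent.Work.MP_f36782_bd.Interface

set_option autoImplicit false

/-!
# Block GSD: clopen games are determined (helper46)
-/

namespace Pool.BD

theorem GSD_le_succ {T : Tree} (n : ℕ) (r : T.Pos (n + 1)) :
    Le (⟨n, T.prev n r⟩ : Po T) ⟨n + 1, r⟩ := by
  obtain ⟨x, rfl⟩ := exists_run T (n + 1) r
  rw [x.prev]
  exact le_run x (n + 1) n (Nat.le_succ n)

theorem GSD_prev {T : Tree} (n : ℕ) (r : T.Pos n) (r' : T.Pos (n + 1))
    (h : Le (⟨n, r⟩ : Po T) ⟨n + 1, r'⟩) : T.prev n r' = r := by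
  have h1 : tr (⟨n + 1, r'⟩ : Po T) n = r := h.2
  rw [← h1]
  have h2 : (thr (⟨n + 1, r'⟩ : Po T)).pos (n + 1) = r' := thr_pos (⟨n + 1, r'⟩ : Po T)
  have h3 := (thr (⟨n + 1, r'⟩ : Po T)).prev n
  rw [h2] at h3
  exact h3

theorem GSD_kp {T : Tree} (p : ℕ) : Kp p (Set.univ : Set (Po T)) := by
  rintro ⟨n, r⟩ _ _
  obtain ⟨r', rfl⟩ := T.surj n r
  exact ⟨⟨n + 1, r'⟩, trivial, rfl, GSD_le_succ n r'⟩

theorem p_GSD (h1 : Stmt_FR1) (h2 : Stmt_FR2) (h3 : Stmt_FR3) : Stmt_GSD := by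
  classical
  intro T X hX
  obtain ⟨q⟩ := T.ne
  have hsub := T.sub
  set G : Set (Po T) := {u | ∀ x : Run T, x.pos u.1 = u.2 → x ∈ X} with hG
  by_cases hroot : Frc 0 Set.univ G (⟨0, q⟩ : Po T)
  · left
    obtain ⟨σ, -, hσ⟩ := hroot
    refine ⟨σ, fun x hx => ?_⟩
    obtain ⟨m, hm⟩ := hσ x (Subsingleton.elim _ _) (fun n _ hn => hx n hn) (fun _ _ => trivial)
    exact hm x rfl
  · right
    have hstr : ∀ n (r : T.Pos n), ∃ r' : T.Pos (n + 1), T.prev n r' = r ∧
        ((∃ r'' : T.Pos (n + 1), T.prev n r'' = r ∧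
          ¬ Frc 0 Set.univ G (⟨n + 1, r''⟩ : Po T)) →
          ¬ Frc 0 Set.univ G (⟨n + 1, r'⟩ : Po T)) := by
      intro n r
      by_cases h : ∃ r'' : T.Pos (n + 1), T.prev n r'' = r ∧
          ¬ Frc 0 Set.univ G (⟨n + 1, r''⟩ : Po T)
      · obtain ⟨r'', ha, hb⟩ := h
        exact ⟨r'', ha, fun _ => hb⟩
      · obtain ⟨r', hr'⟩ := T.surj n r
        exact ⟨r', hr', fun h' => absurd h' h⟩
    choose f hf1 hf2 using hstr
    refine ⟨⟨f, hf1⟩, fun x hx hxX => ?_⟩
    have key : ∀ n, ¬ Frc 0 Set.univ G (⟨n, x.pos n⟩ : Po T) := by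
      intro n
      induction n with
      | zero =>
        have : x.pos 0 = q := Subsingleton.elim _ _
        rw [this]
        exact hroot
      | succ n ih =>
        rcases Nat.mod_two_eq_zero_or_one n with hn | hn
        · intro hF
          exact ih (h1 T 0 Set.univ G ⟨n, x.pos n⟩ ⟨n + 1, x.pos (n + 1)⟩ (GSD_kp 0) hn
            trivial rfl (le_run x (n + 1) n (Nat.le_succ n)) hF)
        · have hex : ∃ r'' : T.Pos (n + 1), T.prev n r'' = x.pos n ∧
              ¬ Frc 0 Set.univ G (⟨n + 1, r''⟩ : Po T) := by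
            by_contra hc
            push Not at hc
            apply ih
            refine h2 T 0 Set.univ G ⟨n, x.pos n⟩ (GSD_kp 0) ?_ ?_
            · show n % 2 ≠ 0
              omega
            · rintro ⟨m, r⟩ _ hm hle
              have hm' : m = n + 1 := hm
              subst hm'
              exact hc r (GSD_prev n _ r hle)
          have e : x.pos (n + 1) = f n (x.pos n) := hx n hn
          rw [e]
          exact hf2 n (x.pos n) hex
    obtain ⟨n, hn⟩ := hX x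
    refine key n (h3 T 0 Set.univ G ⟨n, x.pos n⟩ (GSD_kp 0) ⟨n, le_rfl, ?_⟩)
    intro y hy
    have e : tr (⟨n, x.pos n⟩ : Po T) n = x.pos n := tr_self (⟨n, x.pos n⟩ : Po T)
    have hy' : y.pos n = x.pos n := hy.trans e
    exact (hn y hy').2 hxX

end Pool.BD
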