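import Pool.Agent.Work.MP_f36782_bd.Interface

set_option autoImplicit false

/-!
# Block HBC: complements and basic sets can be unravelled (helper46)
-/

namespace Pool.BD

theorem HBC_low (T : Tree) (K : ℕ) : Low (Cov.id T) K :=
  ⟨fun _ _ => Function.bijective_id, fun _ _ _ _ _ => rfl⟩

theorem p_HBC : Stmt_HBC := by
  intro T
  refine ⟨fun X hX T' c k => ?_, fun n W T' c k => ?_⟩
  · obtain ⟨T'', d, hd, hc⟩ := hX T' c k
    refine ⟨T'', d, hd, fun x => ?_⟩
    obtain ⟨n, hn⟩ := hc x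
    exact ⟨n, fun y hy => not_congr (hn y hy)⟩
  · refine ⟨T', Cov.id T', HBC_low T' _, fun x => ⟨n, fun y hy => ?_⟩⟩
    show c.pr n (y.pos n) ∈ W ↔ c.pr n (x.pos n) ∈ W
    rw [hy]

end Pool.BD
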