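import Pool.Agent.Work.MP_f36782_bd.Interface

set_option autoImplicit false

namespace Pool.BD

theorem HBD_ext {T T' : Tree} (d : Cov T' T) (x : Run T) (x' : Run T')
    (h : ∀ n, d.pr n (x'.pos n) = x.pos n) : d.run x' = x := by
  apply Run.ext
  funext n
  exact h n

theorem p_HBD (hGSD : Stmt_GSD) : Stmt_HBD := by
  intro T X hX
  obtain ⟨T'', d, _, hclo⟩ := hX T (Cov.id T) 0
  rcases hGSD T'' _ hclo with ⟨σ, hσ⟩ | ⟨σ, hσ⟩
  · left
    refine ⟨d.st 0 σ, fun x hx => ?_⟩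
    obtain ⟨x', h1, h2⟩ := d.lift 0 σ x (by norm_num) hx
    have h3 : (Cov.id T).run (d.run x') ∈ X := hσ x' h1
    have h4 : (Cov.id T).run (d.run x') = x := by
      rw [HBD_ext d x x' h2]
      rfl
    rw [h4] at h3
    exact h3
  · right
    refine ⟨d.st 1 σ, fun x hx => ?_⟩
    obtain ⟨x', h1, h2⟩ := d.lift 1 σ x (by norm_num) hx
    have h3 : ¬ (Cov.id T).run (d.run x') ∈ X := hσ x' h1
    have h4 : (Cov.id T).run (d.run x') = x := by
      rw [HBD_ext d x x' h2]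
      rfl
    rw [h4] at h3
    exact h3

end Pool.BD
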