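import Pool.Agent.Work.MP_f36782_bd.Interface

set_option autoImplicit false

/-! # Block HBU (typed by helper82): countable unions of unravelled sets -/

namespace Pool.BD

theorem HBU_run_comp {T'' T' T : Tree} (c : Cov T' T) (d : Cov T'' T') (x : Run T'') :
    (c.comp d).run x = c.run (d.run x) := rfl

theorem HBU_clo_congr {T : Tree} {A B : Set (Run T)} (hA : Clo A) (h : ∀ x, x ∈ B ↔ x ∉ A) :
    Clo B := by
  intro x
  obtain ⟨n, hn⟩ := hA x
  exact ⟨n, fun y hy => by rw [h y, h x, hn y hy]⟩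

theorem p_HBU (h1 : Stmt_LIM) (h2 : Stmt_CLO) : Stmt_HBU := by
  intro T X hX T' c k
  choose Tn D hLow hClo using
    fun (i : ℕ) (s : (S : Tree) × Cov S T') => hX i s.1 (c.comp s.2) (k + i)
  let sq : ℕ → (S : Tree) × Cov S T' := fun n =>
    Nat.rec ⟨T', Cov.id T'⟩ (fun i s => ⟨Tn i s, s.2.comp (D i s)⟩) n
  let S : ℕ → Tree := fun i => (sq i).1
  let q : ∀ i, Cov (S i) T' := fun i => (sq i).2
  let d : ∀ i, Cov (S (i + 1)) (S i) := fun i => D i (sq i)
  have hq : ∀ i, q (i + 1) = (q i).comp (d i) := fun i => rfl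
  have hdLow : ∀ i, Low (d i) (2 * k + i) := fun i => (hLow i (sq i)).mono (by omega)
  have hdn : ∀ i (x : Run (S i)), down S d i x = (q i).run x := by
    intro i
    induction i with
    | zero => exact fun x => rfl
    | succ i ih =>
      intro x
      have e1 : down S d (i + 1) x = down S d i ((d i).run x) := rfl
      rw [e1, ih, hq]
      rfl
  obtain ⟨Ti, e, heLow, hρ⟩ := h1 S d (2 * k) hdLow
  have hY : ∀ i, Clo {x : Run Ti | c.run (e.run x) ∈ X i} := by
    intro i x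
    obtain ⟨ρ, hρ1, hρ2⟩ := hρ (i + 1)
    have hZ : Clo {x : Run (S (i + 1)) | (c.comp (q i)).run ((d i).run x) ∈ X i} := hClo i (sq i)
    have key : ∀ y : Run Ti, c.run (e.run y) = (c.comp (q i)).run ((d i).run (ρ y)) := by
      intro y
      rw [← hρ1 y, hdn, hq]
      rfl
    obtain ⟨n, hn⟩ := hZ (ρ x)
    obtain ⟨m, hm⟩ := hρ2 n
    refine ⟨m, fun y hy => ?_⟩
    have h3 := hn (ρ y) (hm y x hy)
    show c.run (e.run y) ∈ X i ↔ c.run (e.run x) ∈ X i
    rw [key y, key x]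
    exact h3
  have hCls : Cls {x : Run Ti | c.run (e.run x) ∈ ⋃ i, X i}ᶜ := by
    intro x hx
    rw [Set.mem_compl_iff, not_not] at hx
    obtain ⟨i, hi⟩ := Set.mem_iUnion.1 hx
    obtain ⟨n, hn⟩ := hY i x
    refine ⟨n, fun y hy => ?_⟩
    rw [Set.mem_compl_iff, not_not]
    exact Set.mem_iUnion.2 ⟨i, (hn y hy).2 hi⟩
  obtain ⟨T'', f, hf, hfC⟩ := h2 Ti _ k hCls
  refine ⟨T'', Cov.comp (T' := Ti) (T := T') e f, Low.comp heLow hf, ?_⟩
  refine HBU_clo_congr hfC fun x => ?_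
  simp only [Set.mem_setOf_eq, Set.mem_compl_iff, not_not]
  rfl

end Pool.BD
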