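import Pool.Agent.Work.MP_f36782_bd.Interface

set_option autoImplicit false

/-!
# Block LIE (Borel determinacy): the strategies on the trees of an inverse system
-/

namespace Pool.BD

section LIE

variable {T : ℕ → Tree} {c : ∀ i, Cov (T (i + 1)) (T i)} {K : ℕ} {h : ∀ i, Low (c i) (K + i)}

/-- the move at the length `m` -/
def LIE_mid (σ : Strat (TI T c K h)) (m n : ℕ) (e : n = m) :
    (T (m + 1)).Pos n → (T (m + 1)).Pos (n + 1) := by
  subst e
  exact fun q => σ.mv n ((c n).pr n q)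

/-- one move of the next strategy -/
noncomputable def LIE_mv (σ : Strat (TI T c K h)) (m : ℕ) (E : Strat (T m)) (n : ℕ)
    (q : (T (m + 1)).Pos n) : (T (m + 1)).Pos (n + 1) := by
  classical
  exact if h1 : n < m then
    Function.surjInv ((h m).bij (n + 1) (by omega)).2 (E.mv n ((c m).pr n q))
  else if h2 : n = m then LIE_mid σ m n h2 q
  else Function.surjInv ((T (m + 1)).surj n) q

theorem LIE_mv_lt (σ : Strat (TI T c K h)) (m : ℕ) (E : Strat (T m)) (n : ℕ)
    (q : (T (m + 1)).Pos n) (h1 : n < m) :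
    (c m).pr (n + 1) (LIE_mv σ m E n q) = E.mv n ((c m).pr n q) := by
  unfold LIE_mv
  rw [dif_pos h1]
  exact Function.surjInv_eq _ _

theorem LIE_mv_eq (σ : Strat (TI T c K h)) (m : ℕ) (E : Strat (T m)) (q : (T (m + 1)).Pos m) :
    LIE_mv σ m E m q = σ.mv m ((c m).pr m q) := by
  unfold LIE_mv
  rw [dif_neg (lt_irrefl m), dif_pos rfl]
  rfl

theorem LIE_sec (σ : Strat (TI T c K h)) (m : ℕ) (E : Strat (T m)) (n : ℕ)
    (q : (T (m + 1)).Pos n) : (T (m + 1)).prev n (LIE_mv σ m E n q) = q := by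
  rcases Nat.lt_trichotomy n m with h1 | h1 | h1
  · refine ((h m).bij n (by omega)).1 ?_
    rw [(c m).comm, LIE_mv_lt σ m E n q h1, E.sec]
  · subst h1
    refine ((h n).bij n (by omega)).1 ?_
    rw [LIE_mv_eq]
    exact σ.sec n ((c n).pr n q)
  · unfold LIE_mv
    rw [dif_neg (by omega), dif_neg (by omega)]
    exact Function.surjInv_eq _ _

/-- the strategies -/
noncomputable def LIE_E (σ : Strat (TI T c K h)) : ∀ m, Strat (T m)
  | 0 => (exists_strat (T 0)).some
  | m + 1 => ⟨LIE_mv σ m (LIE_E σ m), LIE_sec σ m (LIE_E σ m)⟩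

theorem LIE_loc (σ σ' : Strat (TI T c K h)) (n : ℕ) (hn : ∀ m, m ≤ n → σ.mv m = σ'.mv m) (m : ℕ) :
    ∀ j, j ≤ n → (LIE_E σ m).mv j = (LIE_E σ' m).mv j := by
  induction m with
  | zero => intro j _; rfl
  | succ m ih =>
    intro j hj
    funext q
    change LIE_mv σ m (LIE_E σ m) j q = LIE_mv σ' m (LIE_E σ' m) j q
    rcases Nat.lt_trichotomy j m with h1 | h1 | h1
    · refine ((h m).bij (j + 1) (by omega)).1 ?_
      rw [LIE_mv_lt σ m _ j q h1, LIE_mv_lt σ' m _ j q h1, ih j hj]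
    · subst h1
      rw [LIE_mv_eq, LIE_mv_eq, hn j hj]
    · unfold LIE_mv
      rw [dif_neg (by omega), dif_neg (by omega), dif_neg (by omega), dif_neg (by omega)]

end LIE

theorem p_LIE : Stmt_LIE := by
  intro T c K h
  refine ⟨fun σ => LIE_E σ, ?_, ?_, ?_⟩
  · intro σ m q
    exact LIE_mv_eq σ m (LIE_E σ m) q
  · intro σ m n q hn
    exact LIE_mv_lt σ m (LIE_E σ m) n q hn
  · intro σ σ' n hn m j hj
    exact LIE_loc σ σ' n hn m j hj

end Pool.BD
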