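import Pool.Agent.Work.MP_f36782_bd.Interface

set_option autoImplicit false

/-!
# Block LIM: the inverse limit of coverings
-/

namespace Pool.BD

theorem LIM_comm (T : ℕ → Tree) (c : ∀ i, Cov (T (i + 1)) (T i)) (n m : ℕ)
    (q : (T m).Pos (n + 1)) :
    dn T c n m ((T m).prev n q) = (T 0).prev n (dn T c (n + 1) m q) := by
  induction m with
  | zero => rfl
  | succ m ih =>
    show dn T c n m ((c m).pr n ((T (m + 1)).prev n q)) =
      (T 0).prev n (dn T c (n + 1) m ((c m).pr (n + 1) q))
    rw [(c m).comm, ih]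

theorem LIM_dn (T : ℕ → Tree) (c : ∀ i, Cov (T (i + 1)) (T i)) (f : ∀ i, Run (T i))
    (hf : ∀ i n, (c i).pr n ((f (i + 1)).pos n) = (f i).pos n) (n m : ℕ) :
    dn T c n m ((f m).pos n) = (f 0).pos n := by
  induction m with
  | zero => rfl
  | succ m ih =>
    show dn T c n m ((c m).pr n ((f (m + 1)).pos n)) = _
    rw [hf, ih]

theorem LIM_bij (T : ℕ → Tree) (c : ∀ i, Cov (T (i + 1)) (T i)) (K : ℕ)
    (h : ∀ i, Low (c i) (K + i)) (n : ℕ) (hn : n ≤ K) (m : ℕ) :
    Function.Bijective (dn T c n m) := by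
  induction m with
  | zero => exact Function.bijective_id
  | succ m ih => exact ih.comp ((h m).bij n (hn.trans (Nat.le_add_right _ _)))

theorem p_LIM (hLIS : Stmt_LIS) (hLIR : Stmt_LIR) : Stmt_LIM := by
  classical
  intro T c K h
  choose S hS1 hS2 hS3 using fun p => hLIS T c K h p
  obtain ⟨ρ, hρ1, hρ2, hρ3⟩ := hLIR T c K h
  let d : Cov (TI T c K h) (T 0) :=
    { pr := fun n => dn T c n n
      comm := fun n q => LIM_comm T c n (n + 1) q
      st := fun p σ => S p σ 0
      loc := fun p σ σ' n hσ => hS3 p σ σ' n hσ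
      lift := fun p σ x hp hx => by
        let f : ∀ i, {y : Run (T i) // Fol p (S p σ i) y} := fun i =>
          Nat.rec (motive := fun i => {y : Run (T i) // Fol p (S p σ i) y}) ⟨x, hx⟩
            (fun i y => ⟨((c i).lift p (S p σ (i + 1)) y.1 hp (by
                rw [hS1]
                exact y.2)).choose,
              ((c i).lift p (S p σ (i + 1)) y.1 hp (by
                rw [hS1]
                exact y.2)).choose_spec.1⟩) i
        have hf : ∀ i n, (c i).pr n ((f (i + 1)).1.pos n) = (f i).1.pos n := fun i n =>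
          ((c i).lift p (S p σ (i + 1)) (f i).1 hp (by
                rw [hS1]
                exact (f i).2)).choose_spec.2 n
        refine ⟨⟨fun n => (f n).1.pos n, fun n => ?_⟩, ?_, ?_⟩
        · show (c n).pr n ((T (n + 1)).prev n ((f (n + 1)).1.pos (n + 1))) = (f n).1.pos n
          rw [(f (n + 1)).1.prev n, hf]
        · intro n hn
          show (f (n + 1)).1.pos (n + 1) = σ.mv n ((f n).1.pos n)
          rw [(f (n + 1)).2 n hn, hS2, hf]
        · intro n
          exact LIM_dn T c (fun i => (f i).1) hf n n }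
  refine ⟨TI T c K h, d, ⟨fun n hn => LIM_bij T c K h n hn n, ?_⟩, ?_⟩
  · intro p σ n q hn
    have key : ∀ i (q : (T i).Pos n),
        dn T c (n + 1) i ((S p σ i).mv n q) = (S p σ 0).mv n (dn T c n i q) := by
      intro i
      induction i with
      | zero => intro q; rfl
      | succ i ih =>
        intro q
        show dn T c (n + 1) i ((c i).pr (n + 1) ((S p σ (i + 1)).mv n q)) =
          (S p σ 0).mv n (dn T c n i ((c i).pr n q))
        rw [(h i).str p _ n q (by omega), hS1, ih]
    obtain ⟨q', hq'⟩ := ((h n).bij n (by omega)).2 q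
    have h1 := key (n + 1) q'
    rw [hS2, hq'] at h1
    show dn T c (n + 1) (n + 1) (σ.mv n q) = (S p σ 0).mv n (dn T c n n q)
    rw [h1]
    show (S p σ 0).mv n (dn T c n n ((c n).pr n q')) = _
    rw [hq']
  · intro i
    refine ⟨ρ i, fun x => ?_, hρ3 i⟩
    have h1 : ∀ i, down T c i (ρ i x) = ρ 0 x := by
      intro i
      induction i with
      | zero => rfl
      | succ i ih =>
        show down T c i ((c i).run (ρ (i + 1) x)) = ρ 0 x
        rw [hρ1, ih]
    rw [h1]
    refine Run.ext (funext fun n => ?_)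
    have h2 := LIM_dn T c (fun i => ρ i x) (fun i m => by
      show ((c i).run (ρ (i + 1) x)).pos m = (ρ i x).pos m
      rw [hρ1]) n n
    show (ρ 0 x).pos n = dn T c n n (x.pos n)
    rw [← h2]
    show dn T c n n ((ρ n x).pos n) = _
    rw [hρ2]

end Pool.BD
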