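import Pool.Agent.Work.MP_f36782_bd.Interface

/-! # Block LIR: runs of the inverse limit (helper94) -/

set_option autoImplicit false

namespace Pool.BD

section

variable {T : ℕ → Tree} {c : ∀ i, Cov (T (i + 1)) (T i)} {K : ℕ} {h : ∀ i, Low (c i) (K + i)}

/-- A run of `T m` through `x.pos m`. -/
noncomputable def LIR_R (x : Run (TI T c K h)) (m : ℕ) : Run (T m) :=
  thr (⟨m, x.pos m⟩ : Po (T m))

theorem LIR_R_pos (x : Run (TI T c K h)) (m : ℕ) : (LIR_R x m).pos m = x.pos m :=
  thr_pos (⟨m, x.pos m⟩ : Po (T m))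

theorem LIR_step (x : Run (TI T c K h)) (m n : ℕ) (hn : n ≤ m) :
    ((c m).run (LIR_R x (m + 1))).pos n = (LIR_R x m).pos n := by
  refine run_unique _ _ m n hn ?_
  rw [LIR_R_pos, Cov.run_pos, ← (LIR_R x (m + 1)).prev m, LIR_R_pos]
  exact x.prev m

/-- The projected runs. -/
noncomputable def LIR_G (x : Run (TI T c K h)) : ∀ (_ : ℕ) (i : ℕ), Run (T i)
  | 0, i => LIR_R x i
  | k + 1, i => (c i).run (LIR_G x k (i + 1))

theorem LIR_G_succ (x : Run (TI T c K h)) (k i : ℕ) :
    LIR_G x (k + 1) i = (c i).run (LIR_G x k (i + 1)) := rfl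

theorem LIR_G_one (x : Run (TI T c K h)) (k : ℕ) : ∀ i n : ℕ, n ≤ i + k →
    (LIR_G x (k + 1) i).pos n = (LIR_G x k i).pos n := by
  induction k with
  | zero => intro i n hn; exact LIR_step x i n hn
  | succ k ih =>
    intro i n hn
    rw [LIR_G_succ x (k + 1) i, LIR_G_succ x k i, Cov.run_pos, Cov.run_pos,
      ih (i + 1) n (by omega)]

theorem LIR_G_le (x : Run (TI T c K h)) (i n l j : ℕ) (hl : n ≤ i + l) :
    (LIR_G x (l + j) i).pos n = (LIR_G x l i).pos n := by
  induction j with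
  | zero => rfl
  | succ j ih => rw [← ih]; exact LIR_G_one x (l + j) i n (by omega)

theorem LIR_G_dep (x y : Run (TI T c K h)) (k : ℕ) : ∀ i : ℕ,
    (∀ m, m = i + k → x.pos m = y.pos m) → LIR_G x k i = LIR_G y k i := by
  induction k with
  | zero =>
    intro i hi
    show thr (⟨i, x.pos i⟩ : Po (T i)) = thr (⟨i, y.pos i⟩ : Po (T i))
    rw [hi i rfl]
  | succ k ih =>
    intro i hi
    rw [LIR_G_succ, LIR_G_succ, ih (i + 1) fun m hm => hi m (by omega)]

end

theorem p_LIR : Stmt_LIR := by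
  intro T c K h
  refine ⟨fun i x => ⟨fun n => (LIR_G x n i).pos n, fun n => ?_⟩, ?_, ?_, ?_⟩
  · rw [(LIR_G x (n + 1) i).prev n]
    exact LIR_G_one x n i n (by omega)
  · intro i x
    refine Run.ext ?_
    funext n
    rw [Cov.run_pos]
    exact LIR_G_one x n i n (by omega)
  · intro i x
    show (LIR_G x i i).pos i = x.pos i
    have h1 := LIR_G_le x i i 0 i (by omega)
    rw [Nat.zero_add] at h1
    rw [h1]
    exact LIR_R_pos x i
  · intro i n
    refine ⟨i + n, fun x y hxy => ?_⟩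
    show (LIR_G x n i).pos n = (LIR_G y n i).pos n
    rw [LIR_G_dep x y n i fun m hm => by rw [hm]; exact hxy]

end Pool.BD
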