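import Pool.Agent.Work.MP_f36782_bd.Interface

set_option autoImplicit false

/-!
# Block LIS: strategies for the inverse limit (helper4)
-/

namespace Pool.BD

/-- the approximations -/
def LIS_A (T : ℕ → Tree) (c : ∀ i, Cov (T (i + 1)) (T i)) (p : ℕ) (E : ∀ m, Strat (T m)) :
    ℕ → ∀ i, Strat (T i)
  | 0 => fun i => E i
  | k + 1 => fun i => (c i).st p (LIS_A T c p E k (i + 1))

theorem LIS_step (T : ℕ → Tree) (c : ∀ i, Cov (T (i + 1)) (T i)) (K : ℕ)
    (h : ∀ i, Low (c i) (K + i)) (p : ℕ) (E : ∀ m, Strat (T m))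
    (hE : ∀ m n (q : (T (m + 1)).Pos n), n < m →
      (c m).pr (n + 1) ((E (m + 1)).mv n q) = (E m).mv n ((c m).pr n q)) (k : ℕ) :
    ∀ i n, n < i + k → (LIS_A T c p E (k + 1) i).mv n = (LIS_A T c p E k i).mv n := by
  induction k with
  | zero =>
    intro i n hn
    funext q
    obtain ⟨q', rfl⟩ := ((h i).bij n (by omega)).2 q
    show ((c i).st p (E (i + 1))).mv n ((c i).pr n q') = (E i).mv n ((c i).pr n q')
    rw [← (h i).str p (E (i + 1)) n q' (by omega), hE i n q' (by omega)]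
  | succ k ih =>
    intro i n hn
    exact (c i).loc p _ _ n fun m hm => ih (i + 1) m (by omega)

theorem LIS_stab (T : ℕ → Tree) (c : ∀ i, Cov (T (i + 1)) (T i)) (K : ℕ)
    (h : ∀ i, Low (c i) (K + i)) (p : ℕ) (E : ∀ m, Strat (T m))
    (hE : ∀ m n (q : (T (m + 1)).Pos n), n < m →
      (c m).pr (n + 1) ((E (m + 1)).mv n q) = (E m).mv n ((c m).pr n q)) (i n k k' : ℕ)
    (hn : n < i + k) (hk : k ≤ k') :
    (LIS_A T c p E k' i).mv n = (LIS_A T c p E k i).mv n := by
  induction k', hk using Nat.le_induction with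
  | base => rfl
  | succ k' hk' ih => rw [LIS_step T c K h p E hE k' i n (by omega), ih]

theorem LIS_loc (T : ℕ → Tree) (c : ∀ i, Cov (T (i + 1)) (T i)) (p : ℕ) (E E' : ∀ m, Strat (T m))
    (n : ℕ) (hE : ∀ m j, j ≤ n → (E m).mv j = (E' m).mv j) (k : ℕ) :
    ∀ i j, j ≤ n → (LIS_A T c p E k i).mv j = (LIS_A T c p E' k i).mv j := by
  induction k with
  | zero => exact hE
  | succ k ih =>
    intro i j hj
    exact (c i).loc p _ _ j fun m hm => ih (i + 1) m (hm.trans hj)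

theorem p_LIS (hLIE : Stmt_LIE) : Stmt_LIS := by
  intro T c K h p
  obtain ⟨E, e1, e2, e3⟩ := hLIE T c K h
  let S : Strat (TI T c K h) → ∀ m, Strat (T m) := fun σ i =>
    ⟨fun n => (LIS_A T c p (E σ) (n + 1) i).mv n, fun n q => (LIS_A T c p (E σ) (n + 1) i).sec n q⟩
  have hS : ∀ σ i n k, n < i + k → (S σ i).mv n = (LIS_A T c p (E σ) k i).mv n := by
    intro σ i n k hn
    have h1 := LIS_stab T c K h p (E σ) (e2 σ) i n k (max k (n + 1)) hn (le_max_left _ _)
    have h2 := LIS_stab T c K h p (E σ) (e2 σ) i n (n + 1) (max k (n + 1)) (by omega)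
      (le_max_right _ _)
    exact h2.symm.trans h1
  refine ⟨S, ?_, ?_, ?_⟩
  · intro σ i
    refine Strat.ext (funext fun n => ?_)
    rw [hS σ i n (n + 2) (by omega)]
    exact (c i).loc p _ _ n fun m hm => hS σ (i + 1) m (n + 1) (by omega)
  · intro σ n q
    rw [hS σ (n + 1) n 0 (by omega)]
    exact e1 σ n q
  · intro σ σ' n hσ
    rw [hS σ 0 n (n + 1) (by omega), hS σ' 0 n (n + 1) (by omega)]
    exact LIS_loc T c p (E σ) (E σ') n (fun m j hj => e3 σ σ' n hσ m j hj) (n + 1) 0 n le_rfl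

end Pool.BD
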