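import Pool.Agent.Work.MP_f36782_bd.Interface

/-!
# Borel determinacy: block MOD (helper40)
-/

set_option autoImplicit false

namespace Pool.BD

/-- `b` has passed a position in `G ∩ S` of length `k` -/
def MOD_A {T : Tree} (S G : Set (Po T)) (b : Po T) (k : ℕ) : Prop :=
  k ≤ b.1 ∧ (⟨k, tr b k⟩ : Po T) ∈ G ∧ (⟨k, tr b k⟩ : Po T) ∈ S

/-- `b` has passed a forced position of length `k` -/
def MOD_F {T : Tree} (p : ℕ) (S G : Set (Po T)) (a b : Po T) (k : ℕ) : Prop :=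
  k ≤ b.1 ∧ Le a ⟨k, tr b k⟩ ∧ Frc p S G ⟨k, tr b k⟩

open Classical in
/-- the modes -/
noncomputable def MOD_m {T : Tree} (p : ℕ) (S G : Set (Po T)) (a b : Po T) : ℕ :=
  if (∃ k, MOD_A S G b k) then 2 else if b ∈ Sf p S G a then 0 else 1

open Classical in
/-- the first position in `G ∩ S` -/
noncomputable def MOD_u {T : Tree} (S G : Set (Po T)) (b : Po T) : Po T :=
  if h : ∃ k, MOD_A S G b k then ⟨Nat.find h, tr b (Nat.find h)⟩ else b

open Classical in
/-- the strategies at the forced positions -/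
noncomputable def MOD_st {T : Tree} (p : ℕ) (S G : Set (Po T)) (c : Po T) : Strat T :=
  if h : Frc p S G c then Classical.choose h else Classical.choice (exists_strat T)

theorem MOD_st_spec {T : Tree} (p : ℕ) (S G : Set (Po T)) (b : Po T) (h : Frc p S G b) :
    (∀ c ∈ S, Le b c → c.1 % 2 = p → (⟨c.1 + 1, (MOD_st p S G b).mv c.1 c.2⟩ : Po T) ∈ S) ∧
    ∀ x : Run T, x.pos b.1 = b.2 →
      (∀ n, b.1 ≤ n → n % 2 = p → x.pos (n + 1) = (MOD_st p S G b).mv n (x.pos n)) →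
      (∀ n, b.1 ≤ n → (⟨n, x.pos n⟩ : Po T) ∈ S) → ∃ m, (⟨m, x.pos m⟩ : Po T) ∈ G := by
  have e : MOD_st p S G b = Classical.choose h := dif_pos h
  rw [e]
  exact Classical.choose_spec h

open Classical in
/-- the strategy in mode `1` -/
noncomputable def MOD_tau {T : Tree} (p : ℕ) (S G : Set (Po T)) (a : Po T) : Strat T where
  mv := fun n q => if h : ∃ k, MOD_F p S G a ⟨n, q⟩ k then
    (MOD_st p S G ⟨Nat.find h, tr ⟨n, q⟩ (Nat.find h)⟩).mv n q
    else (Classical.choice (exists_strat T)).mv n q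
  sec := fun n q => by
    by_cases h : ∃ k, MOD_F p S G a ⟨n, q⟩ k
    · rw [dif_pos h]
      exact Strat.sec _ n q
    · rw [dif_neg h]
      exact Strat.sec _ n q

theorem MOD_tau_eq {T : Tree} (p : ℕ) (S G : Set (Po T)) (a : Po T) (x : Run T) (n k : ℕ)
    (h1 : MOD_F p S G a ⟨n, x.pos n⟩ k) (h2 : ∀ j, j < k → ¬ MOD_F p S G a ⟨n, x.pos n⟩ j) :
    (MOD_tau p S G a).mv n (x.pos n) = (MOD_st p S G ⟨k, x.pos k⟩).mv n (x.pos n) := by
  classical
  have h : ∃ k, MOD_F p S G a ⟨n, x.pos n⟩ k := ⟨k, h1⟩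
  have e : (MOD_tau p S G a).mv n (x.pos n) =
      (MOD_st p S G ⟨Nat.find h, tr ⟨n, x.pos n⟩ (Nat.find h)⟩).mv n (x.pos n) := by
    show (if h : ∃ k, MOD_F p S G a ⟨n, x.pos n⟩ k then
      (MOD_st p S G ⟨Nat.find h, tr ⟨n, x.pos n⟩ (Nat.find h)⟩).mv n (x.pos n)
      else (Classical.choice (exists_strat T)).mv n (x.pos n)) = _
    rw [dif_pos h]
  rw [e]
  have ek : Nat.find h = k := (Nat.find_eq_iff h).mpr ⟨h1, h2⟩
  rw [ek, tr_run x n k h1.1]

theorem p_MOD : Stmt_MOD := by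
  classical
  intro T p S G a hp hKp haS hopp hG
  refine ⟨MOD_m p S G a, MOD_u S G, MOD_tau p S G a, ?_, ?_, ?_⟩
  · intro b hb
    rw [ MOD_m] at hb
    split_ifs at hb with h1 h2
    exact h2
  · intro b hb
    have h1 : ∃ k, MOD_A S G b k := by
      by_contra hcon
      rw [ MOD_m, if_neg hcon] at hb
      split_ifs at hb
      omega
    have e : MOD_u S G b = ⟨Nat.find h1, tr b (Nat.find h1)⟩ := dif_pos h1
    obtain ⟨k1, k2, k3⟩ := Nat.find_spec h1
    rw [e]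
    exact ⟨k2, k3, k1, rfl⟩
  · intro x hx H
    have hLe : ∀ n, a.1 ≤ n → Le a (⟨n, x.pos n⟩ : Po T) := by
      intro n hn
      refine ⟨hn, ?_⟩
      rw [tr_run x n a.1 hn, hx]
    have hLe2 : ∀ n k, k ≤ n → Le (⟨k, x.pos k⟩ : Po T) (⟨n, x.pos n⟩ : Po T) :=
      fun n k h => le_run x n k h
    by_cases hN : ∃ N, a.1 ≤ N ∧ (⟨N, x.pos N⟩ : Po T) ∈ G ∧ (⟨N, x.pos N⟩ : Po T) ∈ S
    · right
      obtain ⟨N1, N2, N3⟩ := Nat.find_spec hN
      have Nmin : ∀ k, k < Nat.find hN →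
          ¬ (a.1 ≤ k ∧ (⟨k, x.pos k⟩ : Po T) ∈ G ∧ (⟨k, x.pos k⟩ : Po T) ∈ S) :=
        fun k hk => Nat.find_min hN hk
      refine ⟨Nat.find hN, N1, N2, N3, fun n hn => ?_⟩
      have hA : MOD_A S G ⟨n, x.pos n⟩ (Nat.find hN) := by
        refine ⟨hn, ?_, ?_⟩
        · show (⟨Nat.find hN, tr ⟨n, x.pos n⟩ (Nat.find hN)⟩ : Po T) ∈ G
          rw [tr_run x n _ hn]
          exact N2
        · show (⟨Nat.find hN, tr ⟨n, x.pos n⟩ (Nat.find hN)⟩ : Po T) ∈ S
          rw [tr_run x n _ hn]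
          exact N3
      have hex : ∃ k, MOD_A S G ⟨n, x.pos n⟩ k := ⟨_, hA⟩
      refine ⟨?_, ?_⟩
      · rw [ MOD_m, if_pos hex]
      · have e : MOD_u S G (⟨n, x.pos n⟩ : Po T) =
            ⟨Nat.find hex, tr ⟨n, x.pos n⟩ (Nat.find hex)⟩ := dif_pos hex
        rw [e]
        have ek : Nat.find hex = Nat.find hN := by
          rw [Nat.find_eq_iff hex]
          refine ⟨hA, fun k hk hAk => ?_⟩
          obtain ⟨q1, q2, q3⟩ := hAk
          rw [tr_run x n k q1] at q2 q3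
          exact Nmin k hk ⟨(hG _ q2).1, q2, q3⟩
        rw [ek, tr_run x n _ hn]
    · left
      have hno : ∀ n, ¬ ∃ k, MOD_A S G ⟨n, x.pos n⟩ k := by
        rintro n ⟨k, q1, q2, q3⟩
        rw [tr_run x n k q1] at q2 q3
        exact hN ⟨k, (hG _ q2).1, q2, q3⟩
      -- forced positions
      have hforce : ∀ n, a.1 ≤ n → (⟨n, x.pos n⟩ : Po T) ∈ S →
          MOD_m p S G a ⟨n, x.pos n⟩ ≠ 0 →
          MOD_m p S G a ⟨n, x.pos n⟩ = 1 ∧ ∃ k, MOD_F p S G a ⟨n, x.pos n⟩ k := by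
        intro n hn hS hm
        have hsf : (⟨n, x.pos n⟩ : Po T) ∉ Sf p S G a := by
          intro hsf
          apply hm
          rw [ MOD_m, if_neg (hno n), if_pos hsf]
        refine ⟨by rw [ MOD_m, if_neg (hno n), if_neg hsf], ?_⟩
        have h1 : ¬ ∀ c, Le a c → Le c (⟨n, x.pos n⟩ : Po T) → ¬ Frc p S G c :=
          fun h => hsf ⟨hS, hLe n hn, h⟩
        push Not at h1
        obtain ⟨c, c1, c2, c3⟩ := h1
        refine ⟨c.1, c2.1, ?_, ?_⟩
        · have : (⟨c.1, tr ⟨n, x.pos n⟩ c.1⟩ : Po T) = c := by rw [c2.2]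
          rw [this]; exact c1
        · have : (⟨c.1, tr ⟨n, x.pos n⟩ c.1⟩ : Po T) = c := by rw [c2.2]
          rw [this]; exact c3
      have hFiff : ∀ n k, MOD_F p S G a ⟨n, x.pos n⟩ k ↔
          k ≤ n ∧ Le a (⟨k, x.pos k⟩ : Po T) ∧ Frc p S G (⟨k, x.pos k⟩ : Po T) := by
        intro n k
        constructor
        · rintro ⟨q1, q2, q3⟩
          rw [tr_run x n k q1] at q2 q3
          exact ⟨q1, q2, q3⟩
        · rintro ⟨q1, q2, q3⟩
          refine ⟨q1, ?_, ?_⟩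
          · rw [tr_run x n k q1]; exact q2
          · rw [tr_run x n k q1]; exact q3
      -- all positions are in `S`
      have hS : ∀ n, a.1 ≤ n → (⟨n, x.pos n⟩ : Po T) ∈ S := by
        intro n hn
        induction n, hn using Nat.le_induction with
        | base =>
          rw [hx]
          exact haS
        | succ n hn ih =>
          by_cases hpar : n % 2 = p
          · by_cases hm : MOD_m p S G a ⟨n, x.pos n⟩ = 0
            · exact (H n hn hpar).1 hm
            · obtain ⟨m1, hF⟩ := hforce n hn ih hm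
              rw [(H n hn hpar).2 m1]
              have F1 := Nat.find_spec hF
              rw [ MOD_tau_eq p S G a x n (Nat.find hF) F1 (fun j hj => Nat.find_min hF hj)]
              obtain ⟨g1, g2, g3⟩ := (hFiff n _).mp F1
              exact (MOD_st_spec p S G _ g3).1 ⟨n, x.pos n⟩ ih (hLe2 n _ g1) hpar
          · exact hopp _ ih hpar _ rfl (hLe2 (n + 1) n (Nat.le_succ n))
      by_contra hcon
      push Not at hcon
      obtain ⟨n₁, hn₁, hm₁⟩ := hcon
      obtain ⟨-, k₁, hk₁⟩ := hforce n₁ hn₁ (hS n₁ hn₁) hm₁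
      have hex : ∃ k, Le a (⟨k, x.pos k⟩ : Po T) ∧ Frc p S G (⟨k, x.pos k⟩ : Po T) :=
        ⟨k₁, ((hFiff n₁ k₁).mp hk₁).2⟩
      obtain ⟨f1, f2⟩ := Nat.find_spec hex
      have fmin : ∀ k, k < Nat.find hex →
          ¬ (Le a (⟨k, x.pos k⟩ : Po T) ∧ Frc p S G (⟨k, x.pos k⟩ : Po T)) :=
        fun k hk => Nat.find_min hex hk
      set k₀ := Nat.find hex with hk₀
      obtain ⟨m', hm'⟩ := (MOD_st_spec p S G _ f2).2 x rfl (by
        intro n hn hpar
        have han : a.1 ≤ n := f1.1.trans hn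
        have hm : MOD_m p S G a ⟨n, x.pos n⟩ ≠ 0 := by
          intro h0
          have hsf : (⟨n, x.pos n⟩ : Po T) ∈ Sf p S G a := by
            rw [ MOD_m, if_neg (hno n)] at h0
            split_ifs at h0 with h2
            exact h2
          exact hsf.2.2 _ f1 (hLe2 n k₀ hn) f2
        obtain ⟨m1, -⟩ := hforce n han (hS n han) hm
        rw [(H n han hpar).2 m1]
        apply MOD_tau_eq p S G a x n k₀
        · exact (hFiff n k₀).mpr ⟨hn, f1, f2⟩
        · intro j hj hFj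
          exact fmin j hj ((hFiff n j).mp hFj).2) (by
        intro n hn
        exact hS n (f1.1.trans hn))
      have hma : a.1 ≤ m' := (hG _ hm').1
      exact hN ⟨m', hma, hm', hS m' hma⟩

end Pool.BD
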