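import Pool.Agent.Work.MP_f36782_bd.Interface2

set_option autoImplicit false

/-! # Borel determinacy, block OME: integer games -/

open Pool.Agent.Work.RamseyAD

namespace Pool.BD

/-- The sequence of a run of `W`. -/
def OME_z (x : Run W) : ℕ → ℕ := fun i => (x.pos (i + 1)).1.getD i 0

theorem OME_list (n : ℕ) (l : List ℕ) (h : l.length = n + 1) : l = l.take n ++ [l.getD n 0] := by
  apply List.ext_getElem
  · simp [h]
  · intro i h1 h2
    rcases Nat.lt_or_ge i n with h3 | h3
    · rw [List.getElem_append_left (by simp; omega), List.getElem_take]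
    · have : i = n := by omega
      subst this
      rw [List.getElem_append_right (by simp)]
      simp [List.getElem?_eq_getElem h1]

theorem OME_hist (z : ℕ → ℕ) (n : ℕ) : hist z (n + 1) = hist z n ++ [z n] := by
  simp [hist, List.range_succ]

theorem OME_len (z : ℕ → ℕ) (n : ℕ) : (hist z n).length = n := by simp [hist]

theorem OME_take (x : Run W) (n : ℕ) : (x.pos (n + 1)).1.take n = (x.pos n).1 :=
  congrArg Subtype.val (x.prev n)

theorem OME_pos (x : Run W) (n : ℕ) : (x.pos n).1 = hist (OME_z x) n := by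
  induction n with
  | zero =>
    have h := (x.pos 0).2
    rw [List.length_eq_zero_iff] at h
    rw [h]
    simp [hist]
  | succ n ih =>
    rw [OME_hist, ← ih, ← OME_take x n]
    exact OME_list n _ (x.pos (n + 1)).2

theorem OME_z_toRun (z : ℕ → ℕ) : OME_z (toRun z) = z := by
  funext i
  show (hist z (i + 1)).getD i 0 = z i
  rw [OME_hist, List.getD_append_right _ _ _ _ (by rw [OME_len])]
  simp [OME_len]

/-- The move as a function of lists. -/
def OME_s (σ : Strat W) (l : List ℕ) : ℕ := (σ.mv l.length ⟨l, rfl⟩).1.getD l.length 0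

theorem OME_s_eq (σ : Strat W) (m : ℕ) (l : List ℕ) (h : l.length = m) :
    OME_s σ l = (σ.mv m ⟨l, h⟩).1.getD m 0 := by
  subst h
  rfl

theorem OME_fol (p : ℕ) (σ : Strat W) (z : ℕ → ℕ)
    (h : ∀ n, n % 2 = p → z n = OME_s σ (hist z n)) : Fol p σ (toRun z) := by
  intro n hn
  have h1 : z n = (σ.mv n ⟨hist z n, OME_len z n⟩).1.getD n 0 := by
    rw [h n hn, OME_s_eq σ n _ (OME_len z n)]
  have h2 : (σ.mv n ⟨hist z n, OME_len z n⟩).1.take n = hist z n :=
    congrArg Subtype.val (σ.sec n ⟨hist z n, OME_len z n⟩)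
  apply Subtype.ext
  show hist z (n + 1) = (σ.mv n ⟨hist z n, OME_len z n⟩).1
  rw [OME_list n _ (σ.mv n ⟨hist z n, OME_len z n⟩).2, h2, ← h1, OME_hist]

/-- The σ-algebra of the sets which can be unravelled. -/
@[reducible] def OME_sig (hHBC : Stmt_HBC) (hHBU : Stmt_HBU) : MeasurableSpace (ℕ → ℕ) where
  MeasurableSet' := fun S => HB {x : Run W | OME_z x ∈ S}
  measurableSet_empty := by
    exact (hHBC W).2 0 ∅
  measurableSet_compl := fun S hS => (hHBC W).1 _ hS
  measurableSet_iUnion := fun S hS => by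
    have h := hHBU W (fun i => {x : Run W | OME_z x ∈ S i}) hS
    convert h using 1
    ext x
    simp

theorem p_OME (hHBC : Stmt_HBC) (hHBU : Stmt_HBU) (hHBD : Stmt_HBD) : Stmt_OME := by
  intro S hS
  have hle : (MeasurableSpace.pi : MeasurableSpace (ℕ → ℕ)) ≤ OME_sig hHBC hHBU := by
    refine iSup_le fun a => ?_
    rintro T ⟨s, -, rfl⟩
    exact (hHBC W).2 (a + 1) {l | l.1.getD a 0 ∈ s}
  have hHB : HB {x : Run W | OME_z x ∈ S} := hle S hS
  rcases hHBD W _ hHB with ⟨σ, hσ⟩ | ⟨σ, hσ⟩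
  · refine Or.inl ⟨OME_s σ, fun z hz => ?_⟩
    have h1 : Fol 0 σ (toRun z) := by
      refine OME_fol 0 σ z fun n hn => ?_
      obtain ⟨k, rfl⟩ : ∃ k, n = 2 * k := ⟨n / 2, by omega⟩
      exact hz k
    have h2 := hσ _ h1
    have h3 : OME_z (toRun z) ∈ S := h2
    rwa [OME_z_toRun] at h3
  · refine Or.inr ⟨OME_s σ, fun z hz hzS => ?_⟩
    have h1 : Fol 1 σ (toRun z) := by
      refine OME_fol 1 σ z fun n hn => ?_
      obtain ⟨k, rfl⟩ : ∃ k, n = 2 * k + 1 := ⟨n / 2, by omega⟩
      exact hz k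
    refine hσ _ h1 ?_
    show OME_z (toRun z) ∈ S
    rwa [OME_z_toRun]

end Pool.BD
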