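import Pool.Agent.Work.MP_f36782_bd.Interface

set_option autoImplicit false

/-! # Block QSF (typed by helper82): the safe positions -/

namespace Pool.BD

theorem QSF_succ {T : Tree} {p : ℕ} {S G : Set (Po T)} {a b c : Po T} (hb : b ∈ Sf p S G a)
    (hc : c ∈ S) (h1 : c.1 = b.1 + 1) (h2 : Le b c) (hF : ¬ Frc p S G c) : c ∈ Sf p S G a := by
  obtain ⟨hbS, hab, hbF⟩ := hb
  refine ⟨hc, le_trans' hab h2, fun d had hdc => ?_⟩
  rcases Nat.lt_or_ge d.1 c.1 with h | h
  · exact hbF d had (le_total' hdc h2 (by omega))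
  · have : d = c := le_antisymm' hdc (le_antisymm hdc.1 h)
    rw [this]
    exact hF

theorem p_QSF (h1 : Stmt_FR1) (h2 : Stmt_FR2) (h3 : Stmt_FR3) : Stmt_QSF := by
  intro T p q S G a hp hq hK haS hdown hna
  subst hq
  refine ⟨⟨?_, ?_, ?_, ?_, ?_⟩, ?_⟩
  · refine ⟨haS, le_self a, fun c hac hca => ?_⟩
    have : a = c := le_antisymm' hac (le_antisymm hac.1 hca.1)
    rw [← this]
    exact hna
  · exact fun b hb => ⟨hb.1, hb.2.1⟩
  · intro b hb c hac hcb
    exact ⟨hdown b hb.1 c hac hcb, hac, fun d had hdc => hb.2.2 d had (le_trans' hdc hcb)⟩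
  · intro b hb hbq c hc hcb hle
    refine QSF_succ hb hc hcb hle fun hF => ?_
    have hbp : b.1 % 2 = p := by omega
    exact hb.2.2 b hb.2.1 (le_self b) (h1 T p S G b c hK hbp hc hcb hle hF)
  · intro b hb hbq
    by_contra hcon
    push Not at hcon
    have hbp : b.1 % 2 ≠ p := by omega
    refine hb.2.2 b hb.2.1 (le_self b) (h2 T p S G b hK hbp fun c hc hcb hle => ?_)
    by_contra hF
    exact hcon c (QSF_succ hb hc hcb hle hF) hcb hle
  · intro b hb hG
    refine hb.2.2 b hb.2.1 (le_self b) (h3 T p S G b hK ⟨b.1, le_rfl, ?_⟩)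
    rw [tr_self]
    exact hG

end Pool.BD
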