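import Pool.Agent.Work.MP_f36782_bd.B_CBI
import Pool.Agent.Work.MP_f36782_bd.B_CCL
import Pool.Agent.Work.MP_f36782_bd.B_CL0
import Pool.Agent.Work.MP_f36782_bd.B_CL1
import Pool.Agent.Work.MP_f36782_bd.B_CLO
import Pool.Agent.Work.MP_f36782_bd.B_CPV
import Pool.Agent.Work.MP_f36782_bd.B_CRE
import Pool.Agent.Work.MP_f36782_bd.B_CRN
import Pool.Agent.Work.MP_f36782_bd.B_CSU
import Pool.Agent.Work.MP_f36782_bd.B_FR1
import Pool.Agent.Work.MP_f36782_bd.B_FR2
import Pool.Agent.Work.MP_f36782_bd.B_FR3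
import Pool.Agent.Work.MP_f36782_bd.B_GSD
import Pool.Agent.Work.MP_f36782_bd.B_HBC
import Pool.Agent.Work.MP_f36782_bd.B_HBD
import Pool.Agent.Work.MP_f36782_bd.B_HBU
import Pool.Agent.Work.MP_f36782_bd.B_LIE
import Pool.Agent.Work.MP_f36782_bd.B_LIM
import Pool.Agent.Work.MP_f36782_bd.B_LIR
import Pool.Agent.Work.MP_f36782_bd.B_LIS
import Pool.Agent.Work.MP_f36782_bd.B_MOD
import Pool.Agent.Work.MP_f36782_bd.B_OME
import Pool.Agent.Work.MP_f36782_bd.B_QSF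

set_option autoImplicit false

/-! # Borel determinacy (Martin 1975) -/

open Pool.Agent.Work.RamseyAD

namespace Pool.BD

/-- **Borel determinacy.**  Integer games with Borel payoff are determined. -/
theorem borel_determinacy (S : Set (ℕ → ℕ)) (hS : MeasurableSet S) : Determined S := by
  have hGSD := p_GSD p_FR1 p_FR2 p_FR3
  have hQSF := p_QSF p_FR1 p_FR2 p_FR3
  have hCRE := p_CRE p_CPV p_CSU
  have hCL0 := p_CL0 hQSF p_MOD p_CBI p_CRN
  have hCL1 := p_CL1 hQSF p_MOD p_CBI p_CRN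
  have hCLO := p_CLO hCRE p_CBI p_CCL hCL0 hCL1
  have hLIS := p_LIS p_LIE
  have hLIM := p_LIM hLIS p_LIR
  exact p_OME p_HBC (p_HBU hLIM hCLO) (p_HBD hGSD) S hS

end Pool.BD
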