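import Mathlib

set_option autoImplicit false

/-!
# Borel determinacy: definitions and statements of the blocks

Files `B_X.lean` in `Pool/Agent/Work/MP_f36782_bd` (import `Pool.Agent.Work.MP_f36782_bd.Interface`),
namespace `Pool.BD`, `theorem p_X (h1 : Stmt_Y) .. : Stmt_X` with the blocks of the column `uses` as
hypotheses in that order.  Helper lemmas with the prefix `X_`.  The docstrings contain the proofs.

A game tree is a sequence of types of positions with surjective maps `prev`; the players alternately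
choose the next position, player `0` chooses the positions of odd length (he moves at the positions of
even length).  The proof is Martin's: Borel sets are unravelled by coverings.
-/

namespace Pool.BD

/-! ## Trees, runs, strategies -/

/-- A game tree: positions of length `n`, and the position before the last move. -/
structure Tree where
  Pos : ℕ → Type
  prev : ∀ n, Pos (n + 1) → Pos n
  surj : ∀ n, Function.Surjective (prev n)
  ne : Nonempty (Pos 0)
  sub : Subsingleton (Pos 0)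

/-- A run. -/
@[ext] structure Run (T : Tree) where
  pos : ∀ n, T.Pos n
  prev : ∀ n, T.prev n (pos (n + 1)) = pos n

/-- A strategy (for both players): a next position for every position. -/
@[ext] structure Strat (T : Tree) where
  mv : ∀ n, T.Pos n → T.Pos (n + 1)
  sec : ∀ n q, T.prev n (mv n q) = q

/-- Player `p` follows `σ` in the run `x`. -/
def Fol {T : Tree} (p : ℕ) (σ : Strat T) (x : Run T) : Prop :=
  ∀ n, n % 2 = p → x.pos (n + 1) = σ.mv n (x.pos n)

/-- One of the players wins the game with payoff `X`. -/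
def Det {T : Tree} (X : Set (Run T)) : Prop :=
  (∃ σ : Strat T, ∀ x, Fol 0 σ x → x ∈ X) ∨ (∃ σ : Strat T, ∀ x, Fol 1 σ x → x ∉ X)

/-- Membership in `X` is decided at a finite stage. -/
def Clo {T : Tree} (X : Set (Run T)) : Prop :=
  ∀ x, ∃ n, ∀ y : Run T, y.pos n = x.pos n → (y ∈ X ↔ x ∈ X)

/-- `X` is closed. -/
def Cls {T : Tree} (X : Set (Run T)) : Prop :=
  ∀ x, x ∉ X → ∃ n, ∀ y : Run T, y.pos n = x.pos n → y ∉ X

theorem exists_strat (T : Tree) : Nonempty (Strat T) :=
  ⟨⟨fun n => Function.surjInv (T.surj n), fun n q => Function.surjInv_eq (T.surj n) q⟩⟩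

theorem run_unique {T : Tree} (x y : Run T) (n m : ℕ) (h : m ≤ n) (e : x.pos n = y.pos n) :
    x.pos m = y.pos m := by
  induction n with
  | zero =>
    have : m = 0 := by omega
    subst this
    exact e
  | succ n ih =>
    rcases Nat.lt_or_ge m (n + 1) with h1 | h1
    · refine ih (by omega) ?_
      rw [← x.prev n, ← y.prev n, e]
    · have : m = n + 1 := by omega
      subst this
      exact e

/-- The run of the strategy `σ` for both players from the root. -/
theorem exists_run_zero (T : Tree) (q : T.Pos 0) : ∃ x : Run T, x.pos 0 = q := by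
  obtain ⟨σ⟩ := exists_strat T
  exact ⟨⟨fun n => Nat.rec q (fun n a => σ.mv n a) n, fun n => σ.sec n _⟩, rfl⟩

/-- Every position belongs to a run. -/
theorem exists_run (T : Tree) (n : ℕ) (q : T.Pos n) : ∃ x : Run T, x.pos n = q := by
  induction n with
  | zero => exact exists_run_zero T q
  | succ n ih =>
    obtain ⟨y, hy⟩ := ih (T.prev n q)
    obtain ⟨σ⟩ := exists_strat T
    -- follow `y` up to `n`, then `q`, then `σ`
    let f : ∀ m, T.Pos (n + 1 + m) := fun m =>
      Nat.rec (motive := fun m => T.Pos (n + 1 + m)) q (fun m a => σ.mv (n + 1 + m) a) m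
    let g : ∀ m, T.Pos m := fun m =>
      if h : m < n + 1 then y.pos m else
        cast (congrArg T.Pos (Nat.add_sub_of_le (not_lt.1 h))) (f (m - (n + 1)))
    have g1 : ∀ m (h : m < n + 1), g m = y.pos m := fun m h => dif_pos h
    have g3 : ∀ m k, n + 1 + k = m → HEq (g m) (f k) := by
      intro m k h
      have h0 : ¬ (m < n + 1) := by omega
      have hk : m - (n + 1) = k := by omega
      simp only [g, dif_neg h0]
      refine (cast_heq _ _).trans ?_
      rw [hk]
    have g2 : ∀ k, g (n + 1 + k) = f k := fun k => eq_of_heq (g3 _ k rfl)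
    refine ⟨⟨g, fun m => ?_⟩, ?_⟩
    · rcases Nat.lt_trichotomy m n with h | h | h
      · rw [g1 _ (by omega), g1 m (by omega), y.prev]
      · subst h
        have e1 : g (m + 1) = q := g2 0
        rw [e1, g1 m (by omega), hy]
      · obtain ⟨k, rfl⟩ := Nat.exists_eq_add_of_le (Nat.succ_le_of_lt h)
        have e1 : g (n + 1 + k + 1) = f (k + 1) := g2 (k + 1)
        have e2 : g (n + 1 + k) = f k := g2 k
        show T.prev (n + 1 + k) (g (n + 1 + k + 1)) = g (n + 1 + k)
        rw [e2]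
        exact (congrArg (T.prev (n + 1 + k)) e1).trans (σ.sec _ _)
    · exact g2 0

/-! ## Positions of all lengths -/

/-- Positions of all lengths. -/
abbrev Po (T : Tree) : Type := (n : ℕ) × T.Pos n

/-- A run through the position `b`. -/
noncomputable def thr {T : Tree} (b : Po T) : Run T := (exists_run T b.1 b.2).choose

theorem thr_pos {T : Tree} (b : Po T) : (thr b).pos b.1 = b.2 := (exists_run T b.1 b.2).choose_spec

/-- The position of length `m` of the position `b`, `m ≤ b.1`. -/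
noncomputable def tr {T : Tree} (b : Po T) (m : ℕ) : T.Pos m := (thr b).pos m

theorem tr_run {T : Tree} (x : Run T) (n m : ℕ) (h : m ≤ n) : tr ⟨n, x.pos n⟩ m = x.pos m :=
  run_unique _ _ n m h (thr_pos ⟨n, x.pos n⟩)

theorem tr_self {T : Tree} (b : Po T) : tr b b.1 = b.2 := thr_pos b

theorem tr_prev {T : Tree} (n : ℕ) (q : T.Pos (n + 1)) (m : ℕ) (h : m ≤ n) :
    tr ⟨n + 1, q⟩ m = tr ⟨n, T.prev n q⟩ m := by
  obtain ⟨x, rfl⟩ := exists_run T (n + 1) q
  rw [tr_run x (n + 1) m (by omega), x.prev, tr_run x n m h]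

/-- The position `a` is an initial position of `b`. -/
def Le {T : Tree} (a b : Po T) : Prop := a.1 ≤ b.1 ∧ tr b a.1 = a.2

theorem le_run {T : Tree} (x : Run T) (n m : ℕ) (h : m ≤ n) :
    Le (⟨m, x.pos m⟩ : Po T) ⟨n, x.pos n⟩ := ⟨h, tr_run x n m h⟩

theorem le_self {T : Tree} (a : Po T) : Le a a := ⟨le_refl _, tr_self a⟩

/-- `a` is an initial position of `b` iff some run passes through both. -/
theorem le_iff {T : Tree} (a b : Po T) :
    Le a b ↔ a.1 ≤ b.1 ∧ ∃ x : Run T, x.pos a.1 = a.2 ∧ x.pos b.1 = b.2 := by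
  constructor
  · rintro ⟨h1, h2⟩
    exact ⟨h1, thr b, h2, thr_pos b⟩
  · rintro ⟨h1, x, h2, h3⟩
    refine ⟨h1, ?_⟩
    rw [← h2]
    exact run_unique _ _ b.1 a.1 h1 ((thr_pos b).trans h3.symm)

theorem le_trans' {T : Tree} {a b c : Po T} (h1 : Le a b) (h2 : Le b c) : Le a c := by
  refine ⟨h1.1.trans h2.1, ?_⟩
  rw [← h1.2]
  exact run_unique _ _ b.1 a.1 h1.1 (h2.2.trans (thr_pos b).symm)

/-- Two initial positions of one position are comparable. -/
theorem le_total' {T : Tree} {a b c : Po T} (h1 : Le a c) (h2 : Le b c) (h : a.1 ≤ b.1) :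
    Le a b := by
  refine ⟨h, ?_⟩
  rw [← h1.2]
  exact run_unique _ _ b.1 a.1 h ((thr_pos b).trans h2.2.symm)

theorem le_antisymm' {T : Tree} {a b : Po T} (h1 : Le a b) (h : a.1 = b.1) : a = b := by
  obtain ⟨n, q⟩ := a
  obtain ⟨m, r⟩ := b
  obtain rfl : n = m := h
  have h2 : q = r := h1.2.symm.trans (thr_pos _)
  rw [h2]

/-! ## Coverings -/

/-- A covering of the tree `T` by the tree `T'`: a projection of positions, and for both players a
map of strategies which is local and such that the runs according to the image of `σ` lift to runs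
according to `σ`. -/
structure Cov (T' T : Tree) where
  pr : ∀ n, T'.Pos n → T.Pos n
  comm : ∀ n q, pr n (T'.prev n q) = T.prev n (pr (n + 1) q)
  st : ℕ → Strat T' → Strat T
  loc : ∀ p σ σ' n, (∀ m, m ≤ n → σ.mv m = σ'.mv m) → (st p σ).mv n = (st p σ').mv n
  lift : ∀ p σ x, p < 2 → Fol p (st p σ) x →
    ∃ x' : Run T', Fol p σ x' ∧ ∀ n, pr n (x'.pos n) = x.pos n

/-- The projection of a run. -/
def Cov.run {T' T : Tree} (c : Cov T' T) (x : Run T') : Run T :=
  ⟨fun n => c.pr n (x.pos n), fun n => by rw [← c.comm, x.prev]⟩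

theorem Cov.run_pos {T' T : Tree} (c : Cov T' T) (x : Run T') (n : ℕ) :
    (c.run x).pos n = c.pr n (x.pos n) := rfl

/-- The covering is trivial up to the positions of length `K`. -/
structure Low {T' T : Tree} (c : Cov T' T) (K : ℕ) : Prop where
  bij : ∀ n, n ≤ K → Function.Bijective (c.pr n)
  str : ∀ p σ n q, n < K → c.pr (n + 1) (σ.mv n q) = (c.st p σ).mv n (c.pr n q)

theorem Low.mono {T' T : Tree} {c : Cov T' T} {K L : ℕ} (h : Low c K) (hL : L ≤ K) : Low c L :=
  ⟨fun n hn => h.bij n (hn.trans hL), fun p σ n q hn => h.str p σ n q (lt_of_lt_of_le hn hL)⟩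

/-- The identity. -/
def Cov.id (T : Tree) : Cov T T where
  pr := fun _ q => q
  comm := fun _ _ => rfl
  st := fun _ σ => σ
  loc := fun _ _ _ n h => h n le_rfl
  lift := fun _ _ x _ h => ⟨x, h, fun _ => rfl⟩

/-- The composition. -/
def Cov.comp {T'' T' T : Tree} (c : Cov T' T) (d : Cov T'' T') : Cov T'' T where
  pr := fun n q => c.pr n (d.pr n q)
  comm := fun n q => by rw [d.comm, c.comm]
  st := fun p σ => c.st p (d.st p σ)
  loc := fun p σ σ' n h => c.loc p _ _ n fun m hm => d.loc p σ σ' m fun j hj => h j (hj.trans hm)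
  lift := fun p σ x hp h => by
    obtain ⟨y, h1, h2⟩ := c.lift p (d.st p σ) x hp h
    obtain ⟨z, h3, h4⟩ := d.lift p σ y hp h1
    exact ⟨z, h3, fun n => by rw [h4, h2]⟩

theorem Low.comp {T'' T' T : Tree} {c : Cov T' T} {d : Cov T'' T'} {K : ℕ} (h1 : Low c K)
    (h2 : Low d K) : Low (c.comp d) K :=
  ⟨fun n hn => (h1.bij n hn).comp (h2.bij n hn), fun p σ n q hn => by
    show c.pr (n + 1) (d.pr (n + 1) (σ.mv n q)) = (c.st p (d.st p σ)).mv n (c.pr n (d.pr n q))
    rw [h2.str p σ n q hn, h1.str p _ n _ hn]⟩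

/-! ## Part A: open games -/

/-- From the position `b` player `p` can reach the set `G` of positions, and keep to the set `S` as
long as the opponent does. -/
def Frc {T : Tree} (p : ℕ) (S G : Set (Po T)) (b : Po T) : Prop := ∃ σ : Strat T,
  (∀ c ∈ S, Le b c → c.1 % 2 = p → (⟨c.1 + 1, σ.mv c.1 c.2⟩ : Po T) ∈ S) ∧
  ∀ x : Run T, x.pos b.1 = b.2 →
    (∀ n, b.1 ≤ n → n % 2 = p → x.pos (n + 1) = σ.mv n (x.pos n)) →
    (∀ n, b.1 ≤ n → (⟨n, x.pos n⟩ : Po T) ∈ S) → ∃ m, (⟨m, x.pos m⟩ : Po T) ∈ G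

/-- Player `p` can always keep to `S`. -/
def Kp {T : Tree} (p : ℕ) (S : Set (Po T)) : Prop :=
  ∀ d ∈ S, d.1 % 2 = p → ∃ c ∈ S, c.1 = d.1 + 1 ∧ Le d c

/-- **FR1** (100), uses nothing.  Player `p` moves at `b`.  `σ` moves from `b` to `c`, at the positions after `c` it is the strategy `σ_c` of `Frc p S G c`, at all
other positions `d ∈ S` with `d.1 % 2 = p` it chooses a position in `S` (`Kp`), at the rest anything (`Function.surjInv`).  A run through `b` which follows `σ` goes through `c`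
and follows `σ_c` from then on. -/
def Stmt_FR1 : Prop := ∀ (T : Tree) (p : ℕ) (S G : Set (Po T)) (b c : Po T), Kp p S →
  b.1 % 2 = p → c ∈ S → c.1 = b.1 + 1 → Le b c → Frc p S G c → Frc p S G b

/-- **FR2** (120), uses nothing.  The opponent moves at `b`.  Choose `σ_c` for every position `c ∈ S` which follows `b`; at a position `d` with `b.1 < d.1` let
`c = tr d (b.1 + 1)`, and if `c ∈ S` and `Le b c` take the move of `σ_c`.  At other positions of `S` with `d.1 % 2 = p` choose a position in `S` (`Kp`). -/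
def Stmt_FR2 : Prop := ∀ (T : Tree) (p : ℕ) (S G : Set (Po T)) (b : Po T), Kp p S →
  b.1 % 2 ≠ p → (∀ c ∈ S, c.1 = b.1 + 1 → Le b c → Frc p S G c) → Frc p S G b

/-- **FR3** (40), uses nothing.  A strategy which keeps to `S` (`Kp`), and every run through `b` passes through `m`. -/
def Stmt_FR3 : Prop := ∀ (T : Tree) (p : ℕ) (S G : Set (Po T)) (b : Po T), Kp p S →
  (∃ m, m ≤ b.1 ∧ (⟨m, tr b m⟩ : Po T) ∈ G) → Frc p S G b

/-- **GSD** (120), uses FR1 FR2 FR3.  Clopen games.  `G = {u | all runs through u are in X}`, `S = Set.univ`, `root = ⟨0, q⟩`.  If `Frc 0 univ G root` then I wins.  Otherwise II chooses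
at every position `b` with `¬ Frc 0 univ G b`, `b.1 % 2 = 1`, a next position `c` with `¬ Frc 0 univ G c` (FR2).  In a run which follows this strategy all positions are not
forced (FR1 for the moves of I; `p = 0`), so none is in `G` (FR3), and if the run `x` were in `X` the stage `n` at which this is decided would give a position in `G`. -/
def Stmt_GSD : Prop := ∀ (T : Tree) (X : Set (Run T)), Clo X → Det X

/-! ## Part B: the covering for a closed set -/

/-- The position `b` belongs to a run in `X`. -/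
def InX {T : Tree} (X : Set (Run T)) (b : Po T) : Prop := ∃ x ∈ X, x.pos b.1 = b.2

/-- `Θ` is a quasi-strategy for player `p` in the game with positions in `S` from the position `a`. -/
structure QS {T : Tree} (S : Set (Po T)) (p : ℕ) (a : Po T) (Θ : Set (Po T)) : Prop where
  root : a ∈ Θ
  mem : ∀ b ∈ Θ, b ∈ S ∧ Le a b
  down : ∀ b ∈ Θ, ∀ c, Le a c → Le c b → c ∈ Θ
  opp : ∀ b ∈ Θ, b.1 % 2 ≠ p → ∀ c ∈ S, c.1 = b.1 + 1 → Le b c → c ∈ Θ
  own : ∀ b ∈ Θ, b.1 % 2 = p → ∃ c ∈ Θ, c.1 = b.1 + 1 ∧ Le b c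

/-- The raw positions of length `n` of the covering tree: a position of `T`, the quasi-strategy which
I chooses in addition to his move at length `2 k`, and what II chooses in addition to his next move: a
position `u` outside `X` or a quasi-strategy in `X`. -/
abbrev Raw (T : Tree) (n : ℕ) : Type := T.Pos n × Set (Po T) × (Po T ⊕ Set (Po T))

/-- The choice `e` of II, who moved to `a` (of length `2 k + 2`), is legal, and the later position `b`
agrees with it. -/
def Good {T : Tree} (X : Set (Run T)) (Θ : Set (Po T)) (a b : Po T) :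
    (Po T ⊕ Set (Po T)) → Prop
  | .inl u => u ∈ Θ ∧ Le a u ∧ ¬ InX X u ∧ (Le b u ∨ Le u b)
  | .inr Ψ => QS Θ 1 a Ψ ∧ (∀ c ∈ Ψ, InX X c) ∧ b ∈ Ψ

/-- Legal positions of the covering tree. -/
structure Valid {T : Tree} (X : Set (Run T)) (k n : ℕ) (r : Raw T n) : Prop where
  z1 : n ≤ 2 * k → r.2.1 = ∅
  z2 : n ≤ 2 * k + 1 → r.2.2 = Sum.inr ∅
  v1 : 2 * k + 1 ≤ n → QS Set.univ 0 ⟨2 * k + 1, tr ⟨n, r.1⟩ (2 * k + 1)⟩ r.2.1
  v2 : 2 * k + 2 ≤ n → Good X r.2.1 ⟨2 * k + 2, tr ⟨n, r.1⟩ (2 * k + 2)⟩ ⟨n, r.1⟩ r.2.2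

/-- The previous position of a raw position. -/
noncomputable def rawPrev (T : Tree) (k n : ℕ) (r : Raw T (n + 1)) : Raw T n := by
  classical
  exact (T.prev n r.1, if n ≤ 2 * k then ∅ else r.2.1, if n ≤ 2 * k + 1 then Sum.inr ∅ else r.2.2)

/-- The tree `T'` is the tree of the legal positions. -/
structure Rep {T : Tree} (X : Set (Run T)) (k : ℕ) (T' : Tree) where
  e : ∀ n, T'.Pos n ≃ {r : Raw T n // Valid X k n r}
  prev : ∀ n q, (e n (T'.prev n q)).1 = rawPrev T k n (e (n + 1) q).1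

/-- The projection of the positions. -/
def Rep.pr {T : Tree} {X : Set (Run T)} {k : ℕ} {T' : Tree} (R : Rep X k T') (n : ℕ)
    (q : T'.Pos n) : T.Pos n := (R.e n q).1.1

/-- **CPV** (120), uses nothing.  The previous position is legal.  `tr_prev` for `v1` and the first position of `v2`; `Good` for `b' = prev b`: `inl u`: if `Le b u` then `Le b' u`;
if `Le u b` then `Le u b'` or `u = b` (`le_antisymm'`), and `Le b' u`.  `inr Ψ`: `down`. -/
def Stmt_CPV : Prop := ∀ (T : Tree) (X : Set (Run T)) (k n : ℕ) (r : Raw T (n + 1)),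
  Valid X k (n + 1) r → Valid X k n (rawPrev T k n r)

/-- **CSU** (250), uses nothing.  Every legal position `r = (q, Θ, e)` of length `n` has a next one.  `n < 2 k`: any next position of `q` (`T.surj`), `∅`, `inr ∅`.  `n = 2 k`: a next position `q'` and
`Θ = {b | Le ⟨2 k + 1, q'⟩ b}`, a quasi-strategy for `0` in `Set.univ`.  `n = 2 k + 1`: a next position `q'`; it is in `Θ` (`opp`, the length `2 k + 1` is odd).  If there is
`u ∈ Θ` with `Le ⟨n + 1, q'⟩ u` and `¬ InX X u` take `inl u`, otherwise `inr {b ∈ Θ | Le ⟨n + 1, q'⟩ b}`: this is a quasi-strategy for `1` in `Θ` (`own`: the next positions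
of a position of odd length of `Θ` are all in `Θ` (`opp`), and there is one).  `n ≥ 2 k + 2`: for `e = inl u`, `n < u.1`: `Le b u`, the next position is `tr u (n + 1)`; `u.1 ≤ n`:
`Le u b`, any next position; for `e = inr Ψ`: `b ∈ Ψ` has a next position in `Ψ` (`own` if `n` is odd; if `n` is even `b ∈ Θ` has a next position in `Θ` by `own` of `Θ`, and it is in `Ψ` by
`opp`).  In all cases `rawPrev` of the new position is `r`: for `n ≤ 2 k` use `z1`, for `n ≤ 2 k + 1` use `z2`. -/
def Stmt_CSU : Prop := ∀ (T : Tree) (X : Set (Run T)) (k n : ℕ) (r : Raw T n), Valid X k n r →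
  ∃ r' : Raw T (n + 1), Valid X k (n + 1) r' ∧ rawPrev T k n r' = r

/-- **CRE** (80), uses CPV CSU.  `Pos n = {r // Valid X k n r}`, `prev` by `rawPrev` and CPV, `surj` by CSU; length `0`: `z1`, `z2` (`2 k + 1 ≤ 0` is false) and `T.ne`, `T.sub`. -/
def Stmt_CRE : Prop := ∀ (T : Tree) (X : Set (Run T)) (k : ℕ), ∃ T' : Tree, Nonempty (Rep X k T')

/-- **CBI** (60), uses nothing.  Up to length `2 k` the projection is bijective (`z1`, `z2`). -/
def Stmt_CBI : Prop := ∀ (T : Tree) (X : Set (Run T)) (k : ℕ) (T' : Tree) (R : Rep X k T') (n : ℕ),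
  n ≤ 2 * k → Function.Bijective (R.pr n)

/-- **CRN** (100), uses nothing.  Runs of `T'` from a run `x` of `T`, `Θ` and `e`.  `x'.pos n = (R.e n).symm ⟨(x.pos n, if n ≤ 2 k then ∅ else Θ, if n ≤ 2 k + 1 then inr ∅ else e), _⟩`; by
`tr_run` the conditions `v1`, `v2` are the hypotheses. -/
def Stmt_CRN : Prop := ∀ (T : Tree) (X : Set (Run T)) (k : ℕ) (T' : Tree) (R : Rep X k T')
  (x : Run T) (Θ : Set (Po T)) (e : Po T ⊕ Set (Po T)),
  QS Set.univ 0 ⟨2 * k + 1, x.pos (2 * k + 1)⟩ Θ →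
  (∀ n, 2 * k + 2 ≤ n → Good X Θ ⟨2 * k + 2, x.pos (2 * k + 2)⟩ ⟨n, x.pos n⟩ e) →
  ∃ x' : Run T', (∀ n, n ≤ 2 * k → (R.e n (x'.pos n)).1 = (x.pos n, ∅, Sum.inr ∅)) ∧
    (R.e (2 * k + 1) (x'.pos (2 * k + 1))).1 = (x.pos (2 * k + 1), Θ, Sum.inr ∅) ∧
    ∀ n, 2 * k + 2 ≤ n → (R.e n (x'.pos n)).1 = (x.pos n, Θ, e)

/-- **CCL** (120), uses nothing.  The preimage of a closed set `X` is decided at length `2 k + 2`.  Let `x` be a run of `T'`, `(R.e (2 k + 2) (x.pos (2 k + 2))).1.2.2 = e`; by `R.prev` all later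
positions have the same `Θ` and `e`.  If `e = inl u`: the position of length `max u.1 (2 k + 2) = u.1` is comparable with `u`, so it is `u`, which is in no run of `X`.  If `e = inr Ψ`: all positions of
length `n ≥ 2 k + 2` are in `Ψ`, so each belongs to a run of `X`, and `X` is closed. -/
def Stmt_CCL : Prop := ∀ (T : Tree) (X : Set (Run T)) (k : ℕ) (T' : Tree) (R : Rep X k T'), Cls X →
  Clo {x : Run T' | ∃ y ∈ X, ∀ n, y.pos n = R.pr n (x.pos n)}

/-- The covering strategies for player `p` (the fields of `Cov`). -/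
def CStr {T : Tree} {X : Set (Run T)} {k : ℕ} {T' : Tree} (R : Rep X k T') (p : ℕ) : Prop :=
  ∃ st : Strat T' → Strat T,
    (∀ σ σ' n, (∀ m, m ≤ n → σ.mv m = σ'.mv m) → (st σ).mv n = (st σ').mv n) ∧
    (∀ σ n q, n < 2 * k → R.pr (n + 1) (σ.mv n q) = (st σ).mv n (R.pr n q)) ∧
    ∀ σ x, Fol p (st σ) x → ∃ x' : Run T', Fol p σ x' ∧ ∀ n, R.pr n (x'.pos n) = x.pos n


/-- The safe positions: no position between `a` and `b` is forced. -/
def Sf {T : Tree} (p : ℕ) (S G : Set (Po T)) (a : Po T) : Set (Po T) :=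
  {b | b ∈ S ∧ Le a b ∧ ∀ c, Le a c → Le c b → ¬ Frc p S G c}

/-- **QSF** (120), uses FR1 FR2 FR3.  The safe positions are a quasi-strategy for the other player.  `opp`: `b.1 % 2 ≠ q` means `b.1 % 2 = p`, FR1; `own`: FR2; `down`: clear.  A safe
position is not in `G` by FR3 (`m = b.1`, `tr_self`). -/
def Stmt_QSF : Prop := ∀ (T : Tree) (p q : ℕ) (S G : Set (Po T)) (a : Po T), p < 2 → q = 1 - p →
  Kp p S → a ∈ S → (∀ b ∈ S, ∀ c, Le a c → Le c b → c ∈ S) → ¬ Frc p S G a →
  QS S q a (Sf p S G a) ∧ ∀ b ∈ Sf p S G a, b ∉ G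

/-- **MOD** (220), uses nothing.  The modes: `0` safe, `1` forced but not yet in `G`, `2` after `G`.  `m b = 2` if there is `u ∈ G ∩ S` with `Le a u`, `Le u b`, and `u b` is the one of least length;
otherwise `m b = 0` if `b ∈ Sf`, otherwise `m b = 1`.  `τ` at `b`: if there is `c` with `Le a c`, `Le c b`, `Frc p S G c`, take the one of least length and a strategy `σ_c` of `Frc`, the move is
`σ_c.mv`.  RUNS: Suppose the run never passes a position in `G ∩ S` of length `≥ a.1`.  All its positions from `a` on are in `S`: in mode `0` by hypothesis, in mode `1` by the first property of `σ_c`, at moves of the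
opponent by hypothesis.  If some mode is `1`, let `c` be the first forced position after `a`: from `c` on the mode is `1` (positions after `c` are not safe, the first
forced position is always `c`) and the run follows `σ_c`, so it reaches `G`, a contradiction (elements of `G` are after `a`).  So all modes are `0`.
Otherwise let `N` be the least length `≥ a.1` of a position in `G ∩ S`; after it the mode is `2` and `u` is this position. -/
def Stmt_MOD : Prop := ∀ (T : Tree) (p : ℕ) (S G : Set (Po T)) (a : Po T), p < 2 → Kp p S → a ∈ S →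
  (∀ b ∈ S, b.1 % 2 ≠ p → ∀ c, c.1 = b.1 + 1 → Le b c → c ∈ S) → (∀ u ∈ G, Le a u) →
  ∃ (m : Po T → ℕ) (u : Po T → Po T) (τ : Strat T),
    (∀ b, m b = 0 → b ∈ Sf p S G a) ∧
    (∀ b, m b = 2 → u b ∈ G ∧ u b ∈ S ∧ Le (u b) b) ∧
    ∀ x : Run T, x.pos a.1 = a.2 →
      (∀ n, a.1 ≤ n → n % 2 = p → (m ⟨n, x.pos n⟩ = 0 → (⟨n + 1, x.pos (n + 1)⟩ : Po T) ∈ S) ∧
        (m ⟨n, x.pos n⟩ = 1 → x.pos (n + 1) = τ.mv n (x.pos n))) →
      (∀ n, a.1 ≤ n → m ⟨n, x.pos n⟩ = 0) ∨
      ∃ N, a.1 ≤ N ∧ (⟨N, x.pos N⟩ : Po T) ∈ G ∧ (⟨N, x.pos N⟩ : Po T) ∈ S ∧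
        ∀ n, N ≤ n → m ⟨n, x.pos n⟩ = 2 ∧ u ⟨n, x.pos n⟩ = ⟨N, x.pos N⟩

/-- **CL0** (300), uses QSF MOD CBI CRN.  Player I.  `st σ` at a position `b = ⟨n, q⟩`: for `n ≤ 2 k` the projection of `σ.mv n q'`, `q'` the position over `q` (CBI).
For `n ≥ 2 k + 2` let `(q₁, Θ, _)` be the raw form of `σ.mv (2 k)` at the position over `tr b (2 k)`, `a = ⟨2 k + 2, tr b (2 k + 2)⟩`, `G = {u | Le a u ∧ ¬ InX X u}`, `Ψ = Sf 0 Θ G a`, and `m`, `u`,
`τ` from MOD (`p = 0`, `S = Θ`; `Θ` is a quasi-strategy for `0` in `Set.univ` from `⟨2 k + 1, q₁⟩`, `a ∈ Θ` if `q₁ = tr b (2 k + 1)`).  Mode `0`: the move is the projection of `σ.mv n` at the position with raw form `(q, Θ, inr Ψ)`,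
mode `2`: at `(q, Θ, inl (u b))`, mode `1`: `τ.mv n q`; in all cases in which these are not legal, any next position.  Write the move as a function of `σ.mv (2 k)` and `σ.mv n`; so it is local.
LIFTING.  Let `x` follow `st σ`, `p = 0`, and `a = ⟨2 k + 2, x.pos (2 k + 2)⟩`: it is in `Θ`, because II moved there (`opp`).  The hypothesis of MOD: in mode `0` the next position is in `Ψ ⊆ Θ` because the legal
position after `(q, Θ, inr Ψ)` is `(q', Θ, inr Ψ)` with `q' ∈ Ψ` (`R.prev`, `Valid.v2`).  If all modes are `0` take the run over `x` given by CRN with `Θ` and `inr Ψ` (legal by QSF).  Otherwise the run with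
`Θ` and `inl ⟨N, x.pos N⟩`; it follows `σ`: for even `n ≥ N` by definition of `st`, for even `2 k + 2 ≤ n < N` because the only legal position after `(x.pos n, Θ, inl u)`, `n < u.1`, is
`(tr u (n + 1), Θ, inl u)`; for `n ≤ 2 k` by definition. -/
def Stmt_CL0 : Prop := ∀ (T : Tree) (X : Set (Run T)) (k : ℕ) (T' : Tree) (R : Rep X k T'), CStr R 0

/-- **CL1** (300), uses QSF MOD CBI CRN.  Player II.  `st σ` at a position `b = ⟨n, q⟩`: for `n ≤ 2 k` the projection of `σ.mv n q'`, `q'` the position over `q` (CBI).  For `n ≥ 2 k + 1` let `a = ⟨2 k + 1, tr b (2 k + 1)⟩`; for a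
quasi-strategy `Θ` (`QS Set.univ 0 a Θ`) let `E Θ` be the third component of the raw form of `σ.mv (2 k + 1)` at the position with raw form `(a.2, Θ, inr ∅)`;
`G = {u | ∃ Θ, QS Set.univ 0 a Θ ∧ E Θ = inl u}`, `Θ* = Sf 1 Set.univ G a`, and `m`, `u`, `τ` from MOD (`p = 1`, `S = Set.univ`).  Mode `2`: choose `Θ` with `E Θ = inl (u b)`, the move is the projection of `σ.mv n` at
`(q, Θ, inl (u b))`.  Mode `0`: for `n = 2 k + 1` the projection of `σ.mv n` at `(q, Θ*, inr ∅)`, for `n ≥ 2 k + 3` at `(q, Θ*, E Θ*)`.  Mode `1`: `τ.mv n q`; where these are not legal, any next position.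
Write the move as a function of `σ.mv (2 k + 1)` and `σ.mv n` (for `n ≥ 2 k + 1`); so it is local.
LIFTING.  Let `x` follow `st σ`, `p = 1`.  If all modes are `0`: `Θ*` is a quasi-strategy which does not meet `G` (QSF), so `E Θ* = inr Ψ`, with `QS Θ* 1 ⟨2 k + 2, x.pos (2 k + 2)⟩ Ψ` (by `Valid` of the move at `n = 2 k + 1`), and
`x.pos n ∈ Ψ` for `n ≥ 2 k + 2` by induction (`n` even: `opp`, since `x.pos (n + 1)` is safe; `n` odd: legality of the position of `σ.mv n`).  Take the run of CRN with `Θ*` and `inr Ψ`.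
Otherwise `u = ⟨N, x.pos N⟩ ∈ G`, `N ≥ 2 k + 2` (it is after the move `σ.mv (2 k + 1)` of the position `(a.2, Θ, inr ∅)`), and the run of CRN with this `Θ` (the one chosen for `u`) and `inl u` follows `σ`: for `n = 2 k + 1`
because `E Θ = inl u` and the next position is `tr u (2 k + 2) = x.pos (2 k + 2)`; for odd `2 k + 3 ≤ n < N` the next position is forced; for `n ≥ N` by definition of `st`. -/
def Stmt_CL1 : Prop := ∀ (T : Tree) (X : Set (Run T)) (k : ℕ) (T' : Tree) (R : Rep X k T'), CStr R 1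

/-- **CLO** (80), uses CRE CBI CCL CL0 CL1.  The covering: `pr = R.pr`, `st 0`, `st 1` from CL0, CL1, and `st p = st 0` for `p ≥ 2`. -/
def Stmt_CLO : Prop := ∀ (T : Tree) (X : Set (Run T)) (k : ℕ), Cls X →
  ∃ (T' : Tree) (c : Cov T' T), Low c (2 * k) ∧ Clo {x : Run T' | c.run x ∈ X}

/-! ## Part C: inverse limits -/

/-- The inverse limit of a sequence of coverings. -/
def TI (T : ℕ → Tree) (c : ∀ i, Cov (T (i + 1)) (T i)) (K : ℕ) (h : ∀ i, Low (c i) (K + i)) :
    Tree where
  Pos := fun n => (T n).Pos n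
  prev := fun n q => (c n).pr n ((T (n + 1)).prev n q)
  surj := fun n => ((h n).bij n (by omega)).2.comp ((T (n + 1)).surj n)
  ne := (T 0).ne
  sub := (T 0).sub

/-- The projection of the positions of `T m` to `T 0`. -/
def dn (T : ℕ → Tree) (c : ∀ i, Cov (T (i + 1)) (T i)) (n : ℕ) : ∀ m, (T m).Pos n → (T 0).Pos n
  | 0 => fun q => q
  | m + 1 => fun q => dn T c n m ((c m).pr n q)

/-- The projection of the runs of `T m` to `T 0`. -/
def down (T : ℕ → Tree) (c : ∀ i, Cov (T (i + 1)) (T i)) : ∀ m, Run (T m) → Run (T 0)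
  | 0 => fun x => x
  | m + 1 => fun x => down T c m ((c m).run x)

/-- **LIE** (200), uses nothing.  The strategies `E σ m` on `T m`.  Recursion on `m`: `E σ 0` is any strategy (the same for all `σ`).  `E σ (m + 1)` at `q : (T (m + 1)).Pos n`: for `n < m` the unique `q'` with
`(c m).pr (n + 1) q' = (E σ m).mv n ((c m).pr n q)` (`(c m).pr` is bijective at the lengths `n`, `n + 1 ≤ m ≤ K + m`, so `prev q' = q`); for `n = m` it is `σ.mv m ((c m).pr m q)` (its `TI`-previous position
is `(c m).pr m (prev ..)`, so `prev .. = q` by injectivity); for `n > m` a fixed choice of next positions.  The last property by induction on `m`. -/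
def Stmt_LIE : Prop := ∀ (T : ℕ → Tree) (c : ∀ i, Cov (T (i + 1)) (T i)) (K : ℕ)
  (h : ∀ i, Low (c i) (K + i)), ∃ E : Strat (TI T c K h) → ∀ m, Strat (T m),
    (∀ σ m (q : (T (m + 1)).Pos m), (E σ (m + 1)).mv m q = σ.mv m ((c m).pr m q)) ∧
    (∀ σ m n (q : (T (m + 1)).Pos n), n < m →
      (c m).pr (n + 1) ((E σ (m + 1)).mv n q) = (E σ m).mv n ((c m).pr n q)) ∧
    ∀ σ σ' n, (∀ m, m ≤ n → σ.mv m = σ'.mv m) → ∀ m j, j ≤ n → (E σ m).mv j = (E σ' m).mv j

/-- **LIS** (200), uses LIE.  The strategies `Σ σ i` on `T i`.  `A σ 0 i = E σ i`, `A σ (k + 1) i = (c i).st p (A σ k (i + 1))`.  CLAIM: `A σ (k + 1) i` and `A σ k i` agree at the lengths `n < i + k`.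
`k = 0`: for `n < i` and `q` (over which there is `q'`, bijectivity) `((c i).st p (E σ (i + 1))).mv n q = (c i).pr (n + 1) ((E σ (i + 1)).mv n q') = (E σ i).mv n q` by `Low.str` (`n < K + i`) and LIE.  `k + 1`: `Cov.loc`.
Let `(Σ σ i).mv n = (A σ (n + 1) i).mv n = (A σ k i).mv n` for all `k ≥ n + 1`.  Then `(c i).st p (Σ σ (i + 1)) = Σ σ i` by `Cov.loc` (`Σ σ (i + 1)` agrees with `A σ (n + 1) (i + 1)` at the lengths `≤ n`), and
`(Σ σ (n + 1)).mv n = (A σ 0 (n + 1)).mv n` (`n < n + 1`).  Locality: induction, `Cov.loc` and LIE. -/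
def Stmt_LIS : Prop := ∀ (T : ℕ → Tree) (c : ∀ i, Cov (T (i + 1)) (T i)) (K : ℕ)
  (h : ∀ i, Low (c i) (K + i)) (p : ℕ), ∃ S : Strat (TI T c K h) → ∀ m, Strat (T m),
    (∀ σ i, (c i).st p (S σ (i + 1)) = S σ i) ∧
    (∀ σ n (q : (T (n + 1)).Pos n), (S σ (n + 1)).mv n q = σ.mv n ((c n).pr n q)) ∧
    ∀ σ σ' n, (∀ m, m ≤ n → σ.mv m = σ'.mv m) → (S σ 0).mv n = (S σ' 0).mv n

/-- **LIR** (150), uses nothing.  Runs of the limit give runs of `T i`.  For `x` let `R m` be a run of `T m` through `x.pos m` (`thr`); `(c m).run (R (m + 1))` and `R m` agree at length `m`, so at all lengths `≤ m`.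
`G 0 i = R i`, `G (k + 1) i = (c i).run (G k (i + 1))`: `G (k + 1) i` and `G k i` agree at the lengths `≤ i + k`.  `(ρ i x).pos n = (G n i).pos n = (G k i).pos n` for `k ≥ n`.  It depends on `R (i + n)`, so on `x.pos (i + n)`. -/
def Stmt_LIR : Prop := ∀ (T : ℕ → Tree) (c : ∀ i, Cov (T (i + 1)) (T i)) (K : ℕ)
  (h : ∀ i, Low (c i) (K + i)), ∃ ρ : ∀ i, Run (TI T c K h) → Run (T i),
    (∀ i x, (c i).run (ρ (i + 1) x) = ρ i x) ∧ (∀ i x, (ρ i x).pos i = x.pos i) ∧
    ∀ i n, ∃ m, ∀ x y : Run (TI T c K h), x.pos m = y.pos m → (ρ i x).pos n = (ρ i y).pos n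

/-- **LIM** (200), uses LIS LIR.  The limit.  `d.pr n = dn T c n n`, `d.st p σ = S σ 0` (LIS for `p`).  `comm`: `dn n n ((c n).pr n (prev q)) = dn n (n + 1) (prev q) = (T 0).prev n (dn (n + 1) (n + 1) q)` (iterate
`Cov.comm`).  `lift`: `x₀ = x` follows `S σ 0 = (c 0).st p (S σ 1)`; by `Cov.lift` and recursion runs `x_i` of `T i` which follow `S σ i`, `(c i).run x_(i+1) = x_i`.  `x' n = (x_n).pos n`: a run of the limit, it follows `σ`:
`(x_(n+1)).pos (n + 1) = (S σ (n + 1)).mv n ((x_(n+1)).pos n) = σ.mv n ((c n).pr n ((x_(n+1)).pos n)) = σ.mv n ((x_n).pos n)`.  `Low`: `dn n m` is bijective for `n ≤ K`; and for `n < K`, by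
induction on `i`, `dn (n + 1) i ((S σ i).mv n q) = (S σ 0).mv n (dn n i q)` (`Low.str`), used for `i = n + 1` and `q'` with `(c n).pr n q' = q`.  `down T c i (ρ i x) = ρ 0 x`, and
`(ρ 0 x).pos n = dn n n ((ρ n x).pos n) = dn n n (x.pos n)`. -/
def Stmt_LIM : Prop := ∀ (T : ℕ → Tree) (c : ∀ i, Cov (T (i + 1)) (T i)) (K : ℕ)
  (_ : ∀ i, Low (c i) (K + i)), ∃ (T' : Tree) (d : Cov T' (T 0)), Low d K ∧
    ∀ i, ∃ ρ : Run T' → Run (T i), (∀ x, down T c i (ρ x) = d.run x) ∧
      ∀ n, ∃ m, ∀ x y : Run T', x.pos m = y.pos m → (ρ x).pos n = (ρ y).pos n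

/-! ## Part D: unravelled sets -/

/-- `X` and its preimages under coverings can be unravelled. -/
def HB {T : Tree} (X : Set (Run T)) : Prop := ∀ (T' : Tree) (c : Cov T' T) (k : ℕ),
  ∃ (T'' : Tree) (d : Cov T'' T'), Low d (2 * k) ∧ Clo {x : Run T'' | c.run (d.run x) ∈ X}

/-- **HBC** (60), uses nothing.  Complements (clear), and sets which depend on one position (`d = Cov.id`). -/
def Stmt_HBC : Prop := ∀ T : Tree, (∀ X : Set (Run T), HB X → HB Xᶜ) ∧
  ∀ (n : ℕ) (W : Set (T.Pos n)), HB {x : Run T | x.pos n ∈ W}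

/-- **HBU** (200), uses LIM CLO.  Countable unions.  Given `c : Cov T' T` and `k`.  Recursion: trees `S i` with `q i : Cov (S i) T'`, `S 0 = T'`, `q 0 = id`, and `HB (X i)` for `c.comp (q i)` and `k + i` gives `S (i + 1)`,
`d i : Cov (S (i + 1)) (S i)`, `q (i + 1) = (q i).comp (d i)` (a recursion in `(S : Tree) × Cov S T'`).  `Low (d i) (2 k + i)` by `Low.mono`.  LIM for `K = 2 k`: `T∞`, `d`, `ρ`.  `(q i).run = down S d i` by induction.
The set `{x | c.run (d.run x) ∈ X i}` is decided at a finite stage (`d.run x = down (i + 1) (ρ x)`, so it is the preimage under `ρ` of a set decided at a finite stage).  So the complement of `{x | c.run (d.run x) ∈ ⋃ i, X i}` is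
closed; CLO for it on `T∞` gives `e : Cov T'' T∞`; take `d.comp e`. -/
def Stmt_HBU : Prop := ∀ (T : Tree) (X : ℕ → Set (Run T)), (∀ i, HB (X i)) → HB (⋃ i, X i)

/-- **HBD** (60), uses GSD.  `HB X` with `c = Cov.id T`, `k = 0`: the preimage is determined (GSD), and a winning strategy `σ` for `p` gives the winning strategy `d.st p σ` (`Cov.lift`). -/
def Stmt_HBD : Prop := ∀ (T : Tree) (X : Set (Run T)), HB X → Det X

end Pool.BD
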