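import Pool.Agent.Work.MP_f36782_bd.Interface
import Pool.Agent.Work.MP_f36782_h69.Defs

set_option autoImplicit false

/-! # Borel determinacy, part E: integer games -/

open Pool.Agent.Work.RamseyAD

namespace Pool.BD

/-- The tree of the finite sequences of natural numbers. -/
def W : Tree where
  Pos := fun n => {l : List ℕ // l.length = n}
  prev := fun n l => ⟨l.1.take n, by rw [List.length_take, l.2]; omega⟩
  surj := fun n l => ⟨⟨l.1 ++ [0], by rw [List.length_append, l.2]; rfl⟩, by
    apply Subtype.ext
    show (l.1 ++ [0]).take n = l.1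
    rw [List.take_append_of_le_length (by rw [l.2]), List.take_of_length_le (by rw [l.2])]⟩
  ne := ⟨⟨[], rfl⟩⟩
  sub := ⟨fun a b => Subtype.ext (by rw [List.length_eq_zero_iff.1 a.2, List.length_eq_zero_iff.1 b.2])⟩

/-- The run of `W` of a sequence. -/
def toRun (z : ℕ → ℕ) : Run W where
  pos := fun n => ⟨hist z n, by simp [hist]⟩
  prev := fun n => by
    apply Subtype.ext
    show (hist z (n + 1)).take n = hist z n
    simp only [hist]
    rw [← List.map_take, List.take_range]
    simp

/-- **OME** (200), uses HBC HBU HBD.  The runs of `W` are the `toRun z` (`z i` is the last entry of `x.pos (i + 1)`, or `(x.pos (i + 1)).1.getD i 0`; `x.pos n = hist z n` by induction).  The sets `S` of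
sequences with `HB {x | ∃ z ∈ S, x = toRun z}` form a σ-algebra (HBC, HBU) which contains the sets `{z | z i ∈ s}` (HBC with `n = i + 1`), so it contains the Borel sets
(`MeasurableSpace.pi`, `iSup_le`, `MeasurableSpace.comap_le_iff_le_map`, or `measurable_pi_iff`).  By HBD the game on `W` is determined.  A winning strategy `σ : Strat W` for player `p` gives
`s l = (σ.mv l.length ⟨l, rfl⟩).1.getD l.length 0`: if `z (2 n) = s (hist z (2 n))` for all `n` then `toRun z` follows `σ` (a position `l'` of length `i + 1` with `l'.take i = l` is
`l ++ [l'.getD i 0]`, and `hist z (i + 1) = hist z i ++ [z i]`). -/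
def Stmt_OME : Prop := ∀ S : Set (ℕ → ℕ), MeasurableSet S → Determined S

end Pool.BD
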